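import Pool.Agent.D0H19.CB.Phase

/-!
# Project CB: angles
-/

set_option autoImplicit false

namespace Pool.Agent.D0H19.CB

open Real Filter

lemma exp_sub_one_ge {θ : ℝ} (h : |θ| ≤ π) : 2 / π * |θ| ≤ ‖Complex.exp (θ * Complex.I) - 1‖ := by
  have h1 : ‖Complex.exp (θ * Complex.I) - 1‖ = 2 * |sin (θ / 2)| := by
    rw [mul_comm, Complex.norm_exp_I_mul_ofReal_sub_one, norm_mul, norm_eq_abs, norm_eq_abs, abs_two]
  rw [h1]
  have h2 := Real.mul_abs_le_abs_sin (x := θ / 2) (by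
    rw [abs_div, abs_two]
    linarith)
  rw [abs_div, abs_two] at h2
  linarith

/-- a set of dimension zero meets a circle in a set of angles of dimension zero -/
theorem dim_angle {E : Set ℂ} (hE : dimH E = 0) {a : ℝ} (ha : 0 < a) :
    dimH {φ : ℝ | (a : ℂ) * Complex.exp (φ * Complex.I) ∈ E} = 0 := by
  have h : ∀ k : ℤ, dimH ({φ : ℝ | (a : ℂ) * Complex.exp (φ * Complex.I) ∈ E} ∩ Set.Icc (k : ℝ) (k + 1)) = 0 := by
    intro k
    set f : Set.Icc (k : ℝ) (k + 1) → ℂ := fun φ => (a : ℂ) * Complex.exp ((φ : ℝ) * Complex.I) with hf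
    have hanti : AntilipschitzWith (Real.toNNReal (π / (2 * a))) f := by
      refine AntilipschitzWith.of_le_mul_dist fun x y => ?_
      rw [Real.coe_toNNReal _ (by positivity)]
      have e1 : dist (f x) (f y) = a * ‖Complex.exp (((x : ℝ) - y : ℝ) * Complex.I) - 1‖ := by
        rw [dist_eq_norm]
        have e2 : f x - f y = (a : ℂ) * (Complex.exp (((x : ℝ) - y : ℝ) * Complex.I) - 1) *
            Complex.exp ((y : ℝ) * Complex.I) := by
          rw [hf]
          simp only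
          rw [mul_assoc, sub_mul, one_mul, ← Complex.exp_add, mul_sub]
          congr 3
          push_cast
          ring
        rw [e2, norm_mul, norm_mul, Complex.norm_exp_ofReal_mul_I, mul_one, Complex.norm_real,
          norm_of_nonneg ha.le]
      have hxy : |(x : ℝ) - y| ≤ π := by
        have hx := x.2
        have hy := y.2
        rw [Set.mem_Icc] at hx hy
        have := pi_gt_three
        rw [abs_le]
        constructor <;> linarith [hx.1, hx.2, hy.1, hy.2]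
      have e3 := exp_sub_one_ge hxy
      rw [e1]
      show |(x : ℝ) - y| ≤ _
      calc |(x : ℝ) - y| = π / (2 * a) * (a * (2 / π * |(x : ℝ) - y|)) := by
            have := pi_pos
            field_simp
        _ ≤ _ := by gcongr
    have h1 : {φ : ℝ | (a : ℂ) * Complex.exp (φ * Complex.I) ∈ E} ∩ Set.Icc (k : ℝ) (k + 1) =
        Subtype.val '' {φ : Set.Icc (k : ℝ) (k + 1) | f φ ∈ E} := by
      ext φ
      simp only [Set.mem_inter_iff, Set.mem_ofPred_eq, Set.mem_image, Subtype.exists, exists_and_right,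
        exists_eq_right]
      constructor
      · rintro ⟨h2, h3⟩
        exact ⟨h3, h2⟩
      · rintro ⟨h2, h3⟩
        exact ⟨h3, h2⟩
    rw [h1, isometry_subtype_coe.dimH_image]
    refine le_antisymm (((hanti.le_dimH_image _).trans (dimH_mono ?_)).trans hE.le) bot_le
    rintro z ⟨φ, hφ, rfl⟩
    exact hφ
  have hsub : {φ : ℝ | (a : ℂ) * Complex.exp (φ * Complex.I) ∈ E} ⊆
      ⋃ k : ℤ, ({φ : ℝ | (a : ℂ) * Complex.exp (φ * Complex.I) ∈ E} ∩ Set.Icc (k : ℝ) (k + 1)) := by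
    intro φ hφ
    exact Set.mem_iUnion.2 ⟨⌊φ⌋, hφ, Int.floor_le φ, (Int.lt_floor_add_one φ).le⟩
  refine le_antisymm ((dimH_mono hsub).trans ?_) bot_le
  rw [dimH_iUnion]
  exact iSup_le fun k => (h k).le

/-- bounded pairs -/
lemma bdd_pairs (M : ℝ) : {t : ℕ × ℕ | ((t.1 : ℝ) + t.2) ≤ M}.Finite := by
  refine ((Set.finite_le_nat ⌈M⌉₊).prod (Set.finite_le_nat ⌈M⌉₊)).subset ?_
  intro t ht
  have h1 : (t.1 : ℝ) ≤ M := by
    have : (0 : ℝ) ≤ t.2 := Nat.cast_nonneg _
    have h2 : ((t.1 : ℝ) + t.2) ≤ M := ht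
    linarith
  have h2 : (t.2 : ℝ) ≤ M := by
    have : (0 : ℝ) ≤ t.1 := Nat.cast_nonneg _
    have h2 : ((t.1 : ℝ) + t.2) ≤ M := ht
    linarith
  exact ⟨by exact_mod_cast h1.trans (Nat.le_ceil M), by exact_mod_cast h2.trans (Nat.le_ceil M)⟩

/-- polynomial lower bounds suffice -/
lemma poly_exp {w c B δ : ℝ} (hw : 0 ≤ w) (hc : 0 < c) (hB : 1 ≤ B) (hδ : 0 < δ) :
    ∃ M : ℝ, ∀ T : ℝ, 0 ≤ T → c ≤ (B * (T + 1)) ^ w * exp (-(δ * T)) → T ≤ M := by
  obtain ⟨k, hk⟩ := exists_nat_ge w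
  refine ⟨max 1 (((k + 1).factorial : ℝ) * (B * 2) ^ k / (c * δ ^ (k + 1))), fun T hT h => ?_⟩
  by_cases hT1 : T ≤ 1
  · exact hT1.trans (le_max_left _ _)
  · rw [not_le] at hT1
    refine le_trans ?_ (le_max_right _ _)
    have h1 : (B * (T + 1)) ^ w ≤ (B * (T + 1)) ^ k := by
      rw [← rpow_natCast]
      exact rpow_le_rpow_of_exponent_le (by nlinarith) hk
    have h2 : (B * (T + 1)) ^ k ≤ (B * 2) ^ k * T ^ k := by
      rw [← mul_pow]
      apply pow_le_pow_left₀ (by positivity)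
      nlinarith
    have h3 := pow_div_factorial_le_exp (δ * T) (by positivity) (k + 1)
    have h4 : c * exp (δ * T) ≤ (B * (T + 1)) ^ w := by
      rw [exp_neg, ← div_eq_mul_inv, le_div_iff₀ (exp_pos _)] at h
      exact h
    have hf : (0 : ℝ) < ((k + 1).factorial : ℝ) := by positivity
    have h5 : c * ((δ * T) ^ (k + 1) / ((k + 1).factorial : ℝ)) ≤ (B * 2) ^ k * T ^ k := by
      calc c * ((δ * T) ^ (k + 1) / ((k + 1).factorial : ℝ)) ≤ c * exp (δ * T) := by gcongr
        _ ≤ (B * (T + 1)) ^ w := h4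
        _ ≤ _ := h1.trans h2
    have hTk : 0 < T ^ k := by positivity
    rw [le_div_iff₀ (by positivity)]
    have h6 : c * ((δ * T) ^ (k + 1) / ((k + 1).factorial : ℝ)) * ((k + 1).factorial : ℝ) ≤
        (B * 2) ^ k * T ^ k * ((k + 1).factorial : ℝ) := mul_le_mul_of_nonneg_right h5 hf.le
    have h7 : c * ((δ * T) ^ (k + 1) / ((k + 1).factorial : ℝ)) * ((k + 1).factorial : ℝ) =
        (T * (c * δ ^ (k + 1))) * T ^ k := by
      field_simp
      ring
    rw [h7] at h6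
    have h8 : (T * (c * δ ^ (k + 1))) * T ^ k ≤ (((k + 1).factorial : ℝ) * (B * 2) ^ k) * T ^ k := by
      linarith
    exact le_of_mul_le_mul_right h8 hTk

end Pool.Agent.D0H19.CB
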