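import Pool.Agent.R473.EC.Pi
import Pool.Agent.D0H19.CB.Angle

/-!
# Project CB: arguments which are algebraic over `ℚ(π)`
-/

set_option autoImplicit false

namespace Pool.Agent.D0H19.CB

open Real Filter
open Pool.Agent.R473.EC Pool.Agent.W472.AC

/-- `ℚ(t)` inside the real numbers -/
noncomputable abbrev QQ (t : ℝ) : IntermediateField ℚ ℝ := IntermediateField.adjoin ℚ ({t} : Set ℝ)

/-- integer multiples of finitely many rational numbers -/
lemma common_den {κ : Type} [Fintype κ] (ρ : κ → ℚ) :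
    ∃ D : ℕ, 1 ≤ D ∧ ∃ R : κ → ℤ, ∀ p, (D : ℚ) * ρ p = R p := by
  classical
  refine ⟨∏ p, (ρ p).den, Nat.one_le_iff_ne_zero.2 (Finset.prod_ne_zero_iff.2 fun p _ => (ρ p).den_nz), ?_⟩
  have h : ∀ p, ∃ R : ℤ, ((∏ p, (ρ p).den : ℕ) : ℚ) * ρ p = R := by
    intro p
    obtain ⟨k, hk⟩ := Finset.dvd_prod_of_mem (fun p => (ρ p).den) (Finset.mem_univ p)
    refine ⟨k * (ρ p).num, ?_⟩
    rw [hk]
    push_cast
    have := Rat.mul_den_eq_num (ρ p)
    calc ((ρ p).den : ℚ) * k * ρ p = k * (ρ p * (ρ p).den) := by ring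
      _ = k * ((ρ p).num : ℚ) := by rw [this]
  choose R hR using h
  exact ⟨R, hR⟩

/-- a measure for dependent numbers as well -/
theorem lin_meas (t : ℝ) (ht : MeasR t) {ι : Type} [Fintype ι] (x : ι → ℝ)
    (hx : ∀ i, IsAlgebraic (QQ t) (x i)) :
    ∃ w c : ℝ, 0 ≤ w ∧ 0 < c ∧ ∀ (a : ι → ℤ) (H : ℝ), 1 ≤ H → (∀ i, |(a i : ℝ)| ≤ H) →
      ∑ i, (a i : ℝ) * x i = 0 ∨ c ≤ H ^ w * |∑ i, (a i : ℝ) * x i| := by
  classical
  obtain ⟨V, hV⟩ : ∃ V : Submodule ℚ ℝ, V = Submodule.span ℚ (Set.range x) := ⟨_, rfl⟩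
  have hfd : FiniteDimensional ℚ V := by
    rw [hV]
    exact FiniteDimensional.span_of_finite ℚ (Set.finite_range x)
  have hxV : ∀ i, x i ∈ V := fun i => by
    rw [hV]
    exact Submodule.subset_span ⟨i, rfl⟩
  have hVa : ∀ v ∈ V, IsAlgebraic (QQ t) v := by
    intro v hv
    rw [hV] at hv
    induction hv using Submodule.span_induction with
    | mem v hv =>
      obtain ⟨i, rfl⟩ := hv
      exact hx i
    | zero => exact isAlgebraic_zero
    | add v w _ _ h1 h2 => exact h1.add h2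
    | smul q v _ h =>
      have h1 : q • v = algebraMap (QQ t) ℝ (algebraMap ℚ (QQ t) q) * v := by
        rw [← IsScalarTower.algebraMap_apply, Algebra.smul_def]
      rw [h1]
      exact isAlgebraic_algebraMap _ |>.mul h
  obtain ⟨r, hr⟩ : ∃ r, Module.finrank ℚ V = r := ⟨_, rfl⟩
  rcases r with _ | m
  · have h0 : V = ⊥ := Submodule.finrank_eq_zero.1 hr
    refine ⟨0, 1, le_rfl, one_pos, fun a H _ _ => Or.inl ?_⟩
    refine Finset.sum_eq_zero fun i _ => ?_
    have h1 := hxV i
    rw [h0, Submodule.mem_bot] at h1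
    rw [h1, mul_zero]
  · let b := Module.finBasisOfFinrankEq ℚ V hr
    set y : Fin (m + 1) → ℝ := fun j => (b j : ℝ) with hy
    have hli : LinearIndependent ℚ y := by
      have := b.linearIndependent.map' V.subtype (Submodule.ker_subtype V)
      exact this
    obtain ⟨w, c, hw, hc, hM⟩ := meas_alg t ht y (fun j => hVa _ (b j).2) hli
    obtain ⟨D, hD, R, hR⟩ := common_den (fun p : ι × Fin (m + 1) => b.repr ⟨x p.1, hxV p.1⟩ p.2)
    have hrep : ∀ i, (D : ℝ) * x i = ∑ j, (R (i, j) : ℝ) * y j := by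
      intro i
      have h1 := b.sum_repr ⟨x i, hxV i⟩
      have h2 : x i = ∑ j, ((b.repr ⟨x i, hxV i⟩ j : ℚ) : ℝ) * y j := by
        have h3 := congrArg (Subtype.val : V → ℝ) h1
        rw [Submodule.coe_sum] at h3
        refine h3.symm.trans ?_
        refine Finset.sum_congr rfl fun j _ => ?_
        rw [Submodule.coe_smul, Rat.smul_def]
      conv_lhs => rw [h2]
      rw [Finset.mul_sum]
      refine Finset.sum_congr rfl fun j _ => ?_
      rw [← mul_assoc]
      congr 1
      have h4 := hR (i, j)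
      simp only at h4
      exact_mod_cast congrArg (fun z : ℚ => (z : ℝ)) h4
    set K : ℝ := 1 + ∑ p : ι × Fin (m + 1), |(R p : ℝ)| with hK
    have hK1 : 1 ≤ K := by
      have : 0 ≤ ∑ p : ι × Fin (m + 1), |(R p : ℝ)| := Finset.sum_nonneg fun _ _ => abs_nonneg _
      linarith
    have hD0 : (0 : ℝ) < D := by exact_mod_cast hD
    have hK0 : 0 < K := by linarith
    refine ⟨w, c / (K ^ w * D), hw, by positivity, fun a H hH ha => ?_⟩
    set A : Fin (m + 1) → ℤ := fun j => ∑ i, a i * R (i, j) with hA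
    have hsum : (D : ℝ) * ∑ i, (a i : ℝ) * x i = ∑ j, (A j : ℝ) * y j := by
      rw [Finset.mul_sum]
      calc ∑ i, (D : ℝ) * ((a i : ℝ) * x i) = ∑ i, ∑ j, (a i : ℝ) * ((R (i, j) : ℝ) * y j) := by
            refine Finset.sum_congr rfl fun i _ => ?_
            rw [← Finset.mul_sum, ← hrep]
            ring
        _ = ∑ j, ∑ i, (a i : ℝ) * ((R (i, j) : ℝ) * y j) := Finset.sum_comm
        _ = _ := by
            refine Finset.sum_congr rfl fun j _ => ?_
            rw [hA]
            push_cast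
            rw [Finset.sum_mul]
            refine Finset.sum_congr rfl fun i _ => ?_
            ring
    by_cases hA0 : A = 0
    · left
      rw [hA0] at hsum
      simp only [Pi.zero_apply, Int.cast_zero, zero_mul, Finset.sum_const_zero] at hsum
      exact (mul_eq_zero.1 hsum).resolve_left hD0.ne'
    · right
      have hAb : ∀ j, |(A j : ℝ)| ≤ H * K := by
        intro j
        rw [hA]
        push_cast
        calc |∑ i, (a i : ℝ) * (R (i, j) : ℝ)| ≤ ∑ i, |(a i : ℝ) * (R (i, j) : ℝ)| :=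
              Finset.abs_sum_le_sum_abs _ _
          _ ≤ ∑ i, H * |(R (i, j) : ℝ)| := by
              refine Finset.sum_le_sum fun i _ => ?_
              rw [abs_mul]
              exact mul_le_mul_of_nonneg_right (ha i) (abs_nonneg _)
          _ = H * ∑ i, |(R (i, j) : ℝ)| := by rw [Finset.mul_sum]
          _ ≤ H * K := by
              apply mul_le_mul_of_nonneg_left _ (by linarith)
              have h1 : ∑ i, |(R (i, j) : ℝ)| ≤ ∑ p : ι × Fin (m + 1), |(R p : ℝ)| := by
                rw [Fintype.sum_prod_type]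
                refine Finset.sum_le_sum fun i _ => ?_
                exact Finset.single_le_sum (f := fun j => |(R (i, j) : ℝ)|) (fun _ _ => abs_nonneg _)
                  (Finset.mem_univ j)
              linarith
      have h1 := hM A hA0 (H * K) (by nlinarith) hAb
      rw [← hsum, abs_mul, abs_of_pos hD0, mul_rpow (by linarith) hK0.le] at h1
      rw [div_le_iff₀ (by positivity)]
      linarith

lemma alg_of_mem {t x : ℝ} (h : x ∈ QQ t) : IsAlgebraic (QQ t) x :=
  isAlgebraic_algebraMap (⟨x, h⟩ : QQ t)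

/-- angles algebraic over `ℚ(π)` -/
theorem good_arg {r s : ℝ} (hr : IsAlgebraic (QQ π) r) (hs : IsAlgebraic (QQ π) s) :
    Good (Complex.exp (r * Complex.I)) (Complex.exp (s * Complex.I)) := by
  intro δ hδ
  have hπ := pi_pos
  have hπa : IsAlgebraic (QQ π) (2 * π) := by
    apply alg_of_mem
    exact (QQ π).mul_mem (by exact_mod_cast (QQ π).natCast_mem 2)
      (IntermediateField.subset_adjoin ℚ _ (Set.mem_singleton _))
  obtain ⟨w, c, hw, hc, hM⟩ := lin_meas π measR_pi (ι := Fin 3) ![r, s, 2 * π] (by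
    intro i
    fin_cases i
    · exact hr
    · exact hs
    · exact hπa)
  set B : ℝ := |r| + |s| + 1 with hB
  have hB1 : 1 ≤ B := by
    have := abs_nonneg r
    have := abs_nonneg s
    linarith
  obtain ⟨M, hM'⟩ := poly_exp hw (by positivity : 0 < 2 / π * c) hB1 hδ
  refine (bdd_pairs M).subset ?_
  rintro ⟨n, m⟩ ⟨hne, hlt⟩
  simp only at hne hlt
  show (n : ℝ) + m ≤ M
  apply hM' _ (by positivity)
  have e1 : Complex.exp (r * Complex.I) ^ n / Complex.exp (s * Complex.I) ^ m =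
      Complex.exp (((n * r - m * s : ℝ) : ℂ) * Complex.I) := by
    rw [← Complex.exp_nat_mul, ← Complex.exp_nat_mul, ← Complex.exp_sub]
    congr 1
    push_cast
    ring
  set θ : ℝ := n * r - m * s with hθ
  set j : ℤ := round (θ / (2 * π)) with hj
  set θ' : ℝ := θ - 2 * π * j with hθ'
  have e2 : Complex.exp ((θ : ℂ) * Complex.I) = Complex.exp ((θ' : ℂ) * Complex.I) := by
    rw [Complex.exp_eq_exp_iff_exists_int]
    refine ⟨j, ?_⟩
    rw [hθ']
    push_cast
    ring
  have h1 : |θ / (2 * π) - j| ≤ 1 / 2 := abs_sub_round _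
  have h2 : |θ'| ≤ π := by
    have e3 : θ' = (2 * π) * (θ / (2 * π) - j) := by
      rw [hθ']
      field_simp
    rw [e3, abs_mul, abs_of_pos (by positivity : 0 < 2 * π)]
    nlinarith
  have h3 := exp_sub_one_ge h2
  rw [e1, e2] at hlt
  have h4 : Complex.exp ((θ' : ℂ) * Complex.I) ≠ 1 := by
    intro h5
    apply hne
    rw [← e2, ← e1] at h5
    exact (div_eq_one_iff_eq (pow_ne_zero _ (Complex.exp_ne_zero _))).1 h5
  have h5 : θ' ≠ 0 := by
    intro h6
    apply h4
    rw [h6]
    simp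
  have hn0 : (0 : ℝ) ≤ n := Nat.cast_nonneg n
  have hm0 : (0 : ℝ) ≤ m := Nat.cast_nonneg m
  have hr0 := abs_nonneg r
  have hs0 := abs_nonneg s
  have hθb : |θ| ≤ n * |r| + m * |s| := by
    rw [hθ]
    refine (abs_sub _ _).trans ?_
    rw [abs_mul, abs_mul, abs_of_nonneg hn0, abs_of_nonneg hm0]
  have hjb : |(j : ℝ)| ≤ n * |r| + m * |s| + 1 := by
    have h6 : |(j : ℝ)| ≤ |θ / (2 * π)| + |θ / (2 * π) - j| := by
      have := abs_sub_abs_le_abs_sub (j : ℝ) (θ / (2 * π))
      rw [abs_sub_comm] at this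
      linarith
    have h7 : |θ / (2 * π)| ≤ |θ| := by
      rw [abs_div, abs_of_pos (by positivity : 0 < 2 * π)]
      apply div_le_self (abs_nonneg _)
      have := pi_gt_three
      linarith
    linarith
  have hH1 : 1 ≤ B * ((n : ℝ) + m + 1) := by nlinarith
  have h6 := hM ![(n : ℤ), -(m : ℤ), -j] (B * ((n : ℝ) + m + 1)) hH1 (by
    intro i
    fin_cases i
    · show |(((n : ℤ) : ℤ) : ℝ)| ≤ _
      push_cast
      rw [abs_of_nonneg hn0]
      nlinarith
    · show |((-(m : ℤ) : ℤ) : ℝ)| ≤ _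
      push_cast
      rw [abs_neg, abs_of_nonneg hm0]
      nlinarith
    · show |((-j : ℤ) : ℝ)| ≤ _
      push_cast
      rw [abs_neg]
      refine hjb.trans ?_
      rw [hB]
      nlinarith [mul_nonneg hn0 hs0, mul_nonneg hm0 hr0])
  have e4 : ∑ i, ((![(n : ℤ), -(m : ℤ), -j] i : ℤ) : ℝ) * (![r, s, 2 * π] : Fin 3 → ℝ) i = θ' := by
    rw [Fin.sum_univ_three, hθ', hθ]
    simp
    ring
  rw [e4] at h6
  have h7 := h6.resolve_left h5
  have hpow : 0 < (B * ((n : ℝ) + m + 1)) ^ w := rpow_pos_of_pos (by linarith) _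
  calc 2 / π * c ≤ 2 / π * ((B * ((n : ℝ) + m + 1)) ^ w * |θ'|) := by gcongr
    _ = (B * ((n : ℝ) + m + 1)) ^ w * (2 / π * |θ'|) := by ring
    _ ≤ (B * ((n : ℝ) + m + 1)) ^ w * exp (-(δ * ((n : ℝ) + m))) := by
        gcongr
        exact h3.trans hlt.le

/-- `e ^ (i r)` is a root of unity only if `r` is a rational multiple of `π` -/
lemma tors_exp {r : ℝ} (h : Tors (Complex.exp (r * Complex.I))) : ∃ q : ℚ, r = q * π := by
  obtain ⟨k, hk, h1⟩ := h
  rw [← Complex.exp_nat_mul, Complex.exp_eq_one_iff] at h1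
  obtain ⟨n, hn⟩ := h1
  have hk0 : (k : ℝ) ≠ 0 := by exact_mod_cast (by omega : k ≠ 0)
  have h2 : (k : ℂ) * r = n * (2 * π) := by
    have h3 : ((k : ℂ) * r - n * (2 * π)) * Complex.I = 0 := by linear_combination hn
    have := (mul_eq_zero.1 h3).resolve_right Complex.I_ne_zero
    linear_combination this
  have h3 : (k : ℝ) * r = n * (2 * π) := by exact_mod_cast h2
  refine ⟨2 * n / k, ?_⟩
  push_cast
  field_simp
  linarith

end Pool.Agent.D0H19.CB
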