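import Pool.Agent.Results.MP_606be1_nt.DilatedNearCoincidences

/-!
# Project CB: counting for complex bases
-/

set_option autoImplicit false

namespace Pool.Agent.D0H19.CB

open Real Filter
open Pool.Agent.Results.MP_606be1_nt.DilatedNearCoincidences (rect mid rect_count mid_count)

/-- the pairs `(n, m)` with `|α ^ n - β ^ m| ≤ x` -/
def prs (α β : ℂ) (x : ℝ) : Set (ℕ × ℕ) := {p | ‖α ^ p.1 - β ^ p.2‖ ≤ x}

/-- near misses -/
def nearC (α β : ℂ) : Set (ℕ × ℕ) := {p | ‖α ^ p.1 - β ^ p.2‖ ^ 2 < ‖α‖ ^ p.1}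

/-- the law with error `O(log x)` -/
def Law (α β : ℂ) : Prop :=
  (∀ x : ℝ, (prs α β x).Finite) ∧
    ∃ C : ℝ, ∀ x : ℝ, 2 ≤ x →
      |(((prs α β x).ncard : ℕ) : ℝ) - log x ^ 2 / (log ‖α‖ * log ‖β‖)| ≤ C * log x

theorem law_of {α β : ℂ} (hα : 1 < ‖α‖) (hβ : 1 < ‖β‖) (hn : (nearC α β).Finite) : Law α β := by
  obtain ⟨C1, h1⟩ := rect_count hα hβ one_pos (le_refl (1 : ℝ)) (le_refl (1 : ℝ))
  obtain ⟨C2, h2⟩ := rect_count hα hβ one_pos (by norm_num : (1 : ℝ) ≤ 2) (by norm_num : (1 : ℝ) ≤ 3)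
  obtain ⟨C3, h3⟩ := mid_count hα hβ one_pos
  have hlα : 0 < log ‖α‖ := log_pos hα
  have hlβ : 0 < log ‖β‖ := log_pos hβ
  have hlog2 : 0 < log 2 := log_pos (by norm_num)
  have hup : ∀ x : ℝ, prs α β x ⊆
      (rect ‖α‖ ‖β‖ 1 (2 * x) (3 * x) ∪ mid ‖α‖ ‖β‖ 1 x) ∪ nearC α β := by
    intro x p hp
    by_cases hq : p ∈ nearC α β
    · exact Or.inr hq
    · left
      have hp' : ‖α ^ p.1 - β ^ p.2‖ ≤ x := hp
      have hq' : ‖α‖ ^ p.1 ≤ ‖α ^ p.1 - β ^ p.2‖ ^ 2 := not_lt.1 hq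
      have h4 : |1 * ‖α‖ ^ p.1 - ‖β‖ ^ p.2| ≤ ‖α ^ p.1 - β ^ p.2‖ := by
        have := abs_norm_sub_norm_le (α ^ p.1) (β ^ p.2)
        rwa [norm_pow, norm_pow, ← one_mul (‖α‖ ^ p.1)] at this
      by_cases h5 : 1 * ‖α‖ ^ p.1 ≤ 2 * x
      · left
        refine ⟨h5, ?_⟩
        have := (abs_le.1 (h4.trans hp')).1
        linarith
      · right
        rw [not_le] at h5
        refine ⟨?_, h5, h4.trans hp'⟩
        rw [one_mul]
        exact hq'.trans (pow_le_pow_left₀ (norm_nonneg _) hp' 2)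
  have hfin2 : ∀ x : ℝ, 2 ≤ x → (prs α β x).Finite := fun x hx =>
    (((h2 x hx).1.union (h3 x hx).1).union hn).subset (hup x)
  have hfin : ∀ x : ℝ, (prs α β x).Finite := fun x =>
    (hfin2 (max x 2) (le_max_right _ _)).subset fun p hp => le_trans hp (le_max_left x 2)
  refine ⟨hfin, ?_⟩
  set D : ℝ := log ‖α‖ * log ‖β‖ with hD
  have hD0 : 0 < D := mul_pos hlα hlβ
  set N0 : ℝ := (((nearC α β).ncard : ℕ) : ℝ) with hN0
  have hN00 : 0 ≤ N0 := Nat.cast_nonneg _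
  refine ⟨|C2| + |C3| + N0 / log 2 + |C1| + 2 * log 2 / D + 2 * log 2 / D, fun x hx => ?_⟩
  have hx0 : 0 < x := by linarith
  have hlx : log 2 ≤ log x := log_le_log (by norm_num) hx
  have hlx0 : 0 < log x := by linarith
  obtain ⟨f2, e2⟩ := h2 x hx
  obtain ⟨f3, e3⟩ := h3 x hx
  have hupc : (((prs α β x).ncard : ℕ) : ℝ) ≤ ((rect ‖α‖ ‖β‖ 1 (2 * x) (3 * x)).ncard : ℕ) +
      ((mid ‖α‖ ‖β‖ 1 x).ncard : ℕ) + N0 := by
    have h4 := Set.ncard_le_ncard (hup x) ((f2.union f3).union hn)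
    have h5 := Set.ncard_union_le (rect ‖α‖ ‖β‖ 1 (2 * x) (3 * x) ∪ mid ‖α‖ ‖β‖ 1 x) (nearC α β)
    have h6 := Set.ncard_union_le (rect ‖α‖ ‖β‖ 1 (2 * x) (3 * x)) (mid ‖α‖ ‖β‖ 1 x)
    rw [hN0]
    exact_mod_cast h4.trans (h5.trans (Nat.add_le_add_right h6 _))
  have hlow : (log x ^ 2 / D) - (|C1| + 2 * log 2 / D + 2 * log 2 / D) * log x ≤
      (((prs α β x).ncard : ℕ) : ℝ) := by
    have hC1 : 0 ≤ |C1| := abs_nonneg _
    have hq : 0 ≤ 2 * log 2 / D := by positivity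
    by_cases hx4 : x < 4
    · have h5 : log x ≤ 2 * log 2 := by
        have h6 : log x ≤ log 4 := log_le_log hx0 hx4.le
        rw [show (4 : ℝ) = 2 ^ 2 by norm_num, log_pow] at h6
        push_cast at h6
        exact h6
      have h6 : log x ^ 2 / D ≤ 2 * log 2 / D * log x := by
        rw [div_mul_eq_mul_div]
        apply div_le_div_of_nonneg_right _ hD0.le
        nlinarith
      have h7 : (0 : ℝ) ≤ (((prs α β x).ncard : ℕ) : ℝ) := Nat.cast_nonneg _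
      nlinarith
    · rw [not_lt] at hx4
      obtain ⟨f1, e1⟩ := h1 (x / 2) (by linarith)
      have hsub : rect ‖α‖ ‖β‖ 1 (1 * (x / 2)) (1 * (x / 2)) ⊆ prs α β x := by
        rintro p ⟨h5, h6⟩
        show ‖α ^ p.1 - β ^ p.2‖ ≤ x
        have h7 := norm_sub_le (α ^ p.1) (β ^ p.2)
        rw [norm_pow, norm_pow] at h7
        linarith
      have h5 : (((rect ‖α‖ ‖β‖ 1 (1 * (x / 2)) (1 * (x / 2))).ncard : ℕ) : ℝ) ≤
          (((prs α β x).ncard : ℕ) : ℝ) := by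
        exact_mod_cast Set.ncard_le_ncard hsub (hfin x)
      have h6 := (abs_le.1 e1).1
      have h7 : log (x / 2) = log x - log 2 := log_div hx0.ne' (by norm_num)
      rw [h7] at h6
      have h8 : log x ^ 2 / D - 2 * log 2 / D * log x ≤ (log x - log 2) ^ 2 / D := by
        rw [div_mul_eq_mul_div, ← sub_div]
        apply div_le_div_of_nonneg_right _ hD0.le
        nlinarith [sq_nonneg (log 2)]
      have h9 : C1 * (log x - log 2) ≤ |C1| * log x := by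
        have h10 : C1 * (log x - log 2) ≤ |C1| * (log x - log 2) :=
          mul_le_mul_of_nonneg_right (le_abs_self _) (by linarith)
        nlinarith
      nlinarith
  have hC3 : C3 * log x ≤ |C3| * log x := mul_le_mul_of_nonneg_right (le_abs_self _) hlx0.le
  have hC2 : C2 * log x ≤ |C2| * log x := mul_le_mul_of_nonneg_right (le_abs_self _) hlx0.le
  have hN1 : N0 ≤ N0 / log 2 * log x := by
    rw [div_mul_eq_mul_div, le_div_iff₀ hlog2]
    exact mul_le_mul_of_nonneg_left hlx hN00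
  have hn2 := (abs_le.1 e2).2
  have hq : 0 ≤ 2 * log 2 / D * log x := by positivity
  have hC1' : 0 ≤ |C1| * log x := by positivity
  have hC2' : 0 ≤ |C2| * log x := by positivity
  have hC3' : 0 ≤ |C3| * log x := by positivity
  have hN2 : 0 ≤ N0 / log 2 * log x := by positivity
  rw [abs_le]
  constructor <;> nlinarith

end Pool.Agent.D0H19.CB
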