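import Pool.Agent.D0H19.CB.Phase

/-!
# Project CB: the asymptotic law
-/

set_option autoImplicit false

namespace Pool.Agent.D0H19.CB

open Real Filter Asymptotics Topology
open Pool.Agent.Results.MP_606be1_nt.DilatedNearCoincidences (rect rect_count)

/-- the asymptotic law -/
def AL (α β : ℂ) : Prop :=
  (fun x : ℝ => (((prs α β x).ncard : ℕ) : ℝ)) ~[atTop] (fun x : ℝ => log x ^ 2 / (log ‖α‖ * log ‖β‖))

section

variable {α β : ℂ}

lemma log_little {D : ℝ} (hD : 0 < D) : (fun x : ℝ => log x) =o[atTop] (fun x : ℝ => log x ^ 2 / D) := by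
  have h6 : (fun x : ℝ => log x) =o[atTop] (fun x : ℝ => log x ^ 2) := by
    have h7 : (fun x : ℝ => x) =o[atTop] (fun x : ℝ => x ^ 2) := by
      have := isLittleO_pow_pow_atTop_of_lt (𝕜 := ℝ) (p := 1) (q := 2) (by norm_num)
      simpa using this
    exact h7.comp_tendsto tendsto_log_atTop
  have h8 : (fun x : ℝ => log x ^ 2) =O[atTop] (fun x : ℝ => log x ^ 2 / D) := by
    refine IsBigO.of_bound D ?_
    filter_upwards with x
    rw [norm_div, norm_of_nonneg hD.le, mul_div_cancel₀ _ hD.ne']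
  exact h6.trans_isBigO h8

lemma main_tendsto {D : ℝ} (hD : 0 < D) : Tendsto (fun x : ℝ => log x ^ 2 / D) atTop atTop :=
  ((tendsto_pow_atTop (by norm_num : (2 : ℕ) ≠ 0)).comp tendsto_log_atTop).atTop_div_const hD

theorem AL_of_law (hα : 1 < ‖α‖) (hβ : 1 < ‖β‖) (h : Law α β) : AL α β := by
  obtain ⟨-, C, hC⟩ := h
  have hD : 0 < log ‖α‖ * log ‖β‖ := mul_pos (log_pos hα) (log_pos hβ)
  have h4 : (fun x : ℝ => (((prs α β x).ncard : ℕ) : ℝ) - log x ^ 2 / (log ‖α‖ * log ‖β‖))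
      =O[atTop] (fun x : ℝ => log x) := by
    refine IsBigO.of_bound C ?_
    filter_upwards [eventually_ge_atTop (2 : ℝ)] with x hx
    rw [norm_eq_abs, norm_eq_abs, abs_of_nonneg (log_nonneg (by linarith : (1 : ℝ) ≤ x))]
    exact hC x hx
  exact h4.trans_isLittleO (log_little hD)

theorem fin_of_AL (hα : 1 < ‖α‖) (hβ : 1 < ‖β‖) (h : AL α β) (x : ℝ) : (prs α β x).Finite := by
  have hD : 0 < log ‖α‖ * log ‖β‖ := mul_pos (log_pos hα) (log_pos hβ)
  have h1 := h.symm.tendsto_atTop (main_tendsto hD)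
  by_contra hinf
  have h2 : ∀ᶠ y : ℝ in atTop, (((prs α β y).ncard : ℕ) : ℝ) = 0 := by
    filter_upwards [eventually_ge_atTop x] with y hy
    have h3 : (prs α β y).Infinite := Set.Infinite.mono (fun p hp => le_trans hp hy) hinf
    rw [h3.ncard, Nat.cast_zero]
  obtain ⟨y, hy1, hy2⟩ := (h2.and (h1.eventually_ge_atTop 1)).exists
  linarith

/-- the lower bound -/
theorem lower (hα : 1 < ‖α‖) (hβ : 1 < ‖β‖) : ∃ C : ℝ, ∀ x : ℝ, 2 ≤ x → (prs α β x).Finite →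
    log x ^ 2 / (log ‖α‖ * log ‖β‖) - C * log x ≤ (((prs α β x).ncard : ℕ) : ℝ) := by
  obtain ⟨C1, h1⟩ := rect_count hα hβ one_pos (le_refl (1 : ℝ)) (le_refl (1 : ℝ))
  have hlα : 0 < log ‖α‖ := log_pos hα
  have hlβ : 0 < log ‖β‖ := log_pos hβ
  have hlog2 : 0 < log 2 := log_pos (by norm_num)
  set D : ℝ := log ‖α‖ * log ‖β‖ with hD
  have hD0 : 0 < D := mul_pos hlα hlβ
  refine ⟨|C1| + 2 * log 2 / D + 2 * log 2 / D, fun x hx hfin => ?_⟩
  have hx0 : 0 < x := by linarith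
  have hlx : log 2 ≤ log x := log_le_log (by norm_num) hx
  have hlx0 : 0 < log x := by linarith
  have hC1 : 0 ≤ |C1| := abs_nonneg _
  have hq : 0 ≤ 2 * log 2 / D := by positivity
  by_cases hx4 : x < 4
  · have h5 : log x ≤ 2 * log 2 := by
      have h6 : log x ≤ log 4 := log_le_log hx0 hx4.le
      rw [show (4 : ℝ) = 2 ^ 2 by norm_num, log_pow] at h6
      push_cast at h6
      exact h6
    have h6 : log x ^ 2 / D ≤ 2 * log 2 / D * log x := by
      rw [div_mul_eq_mul_div]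
      apply div_le_div_of_nonneg_right _ hD0.le
      nlinarith
    have h7 : (0 : ℝ) ≤ (((prs α β x).ncard : ℕ) : ℝ) := Nat.cast_nonneg _
    nlinarith
  · rw [not_lt] at hx4
    obtain ⟨f1, e1⟩ := h1 (x / 2) (by linarith)
    have hsub : rect ‖α‖ ‖β‖ 1 (1 * (x / 2)) (1 * (x / 2)) ⊆ prs α β x := by
      rintro p ⟨h5, h6⟩
      show ‖α ^ p.1 - β ^ p.2‖ ≤ x
      have h7 := norm_sub_le (α ^ p.1) (β ^ p.2)
      rw [norm_pow, norm_pow] at h7
      linarith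
    have h5 : (((rect ‖α‖ ‖β‖ 1 (1 * (x / 2)) (1 * (x / 2))).ncard : ℕ) : ℝ) ≤
        (((prs α β x).ncard : ℕ) : ℝ) := by
      exact_mod_cast Set.ncard_le_ncard hsub hfin
    have h6 := (abs_le.1 e1).1
    have h7 : log (x / 2) = log x - log 2 := log_div hx0.ne' (by norm_num)
    rw [h7] at h6
    have h8 : log x ^ 2 / D - 2 * log 2 / D * log x ≤ (log x - log 2) ^ 2 / D := by
      rw [div_mul_eq_mul_div, ← sub_div]
      apply div_le_div_of_nonneg_right _ hD0.le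
      nlinarith [sq_nonneg (log 2)]
    have h9 : C1 * (log x - log 2) ≤ |C1| * log x := by
      have h10 : C1 * (log x - log 2) ≤ |C1| * (log x - log 2) :=
        mul_le_mul_of_nonneg_right (le_abs_self _) (by linarith)
      nlinarith
    nlinarith

end

/-- The law for the moduli implies the law. -/
theorem AL_phase {α β : ℂ} (hα : 1 < ‖α‖) (hβ : 1 < ‖β‖) (h : AL (‖α‖ : ℂ) (‖β‖ : ℂ)) : AL α β := by
  have hα' : 1 < ‖(‖α‖ : ℂ)‖ := by rwa [Complex.norm_real, norm_norm]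
  have hβ' : 1 < ‖(‖β‖ : ℂ)‖ := by rwa [Complex.norm_real, norm_norm]
  have hD : 0 < log ‖α‖ * log ‖β‖ := mul_pos (log_pos hα) (log_pos hβ)
  have hfin := fin_of_AL hα' hβ' h
  have hsub : ∀ x, prs α β x ⊆ prs (‖α‖ : ℂ) (‖β‖ : ℂ) x := by
    intro x p hp
    have hp' : ‖α ^ p.1 - β ^ p.2‖ ≤ x := hp
    show ‖(‖α‖ : ℂ) ^ p.1 - (‖β‖ : ℂ) ^ p.2‖ ≤ x
    have h1 := abs_norm_sub_norm_le (α ^ p.1) (β ^ p.2)
    rw [norm_pow, norm_pow] at h1
    rw [← Complex.ofReal_pow, ← Complex.ofReal_pow, ← Complex.ofReal_sub, Complex.norm_real, norm_eq_abs]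
    exact h1.trans hp'
  have hfin' : ∀ x, (prs α β x).Finite := fun x => (hfin x).subset (hsub x)
  obtain ⟨C, hC⟩ := lower hα hβ
  unfold AL at h ⊢
  rw [Complex.norm_real, Complex.norm_real, norm_norm, norm_norm] at h
  have h1 : (fun x : ℝ => (((prs (‖α‖ : ℂ) (‖β‖ : ℂ) x).ncard : ℕ) : ℝ) - log x ^ 2 / (log ‖α‖ * log ‖β‖))
      =o[atTop] (fun x : ℝ => log x ^ 2 / (log ‖α‖ * log ‖β‖)) := h
  have h2 : (fun x : ℝ => |(((prs (‖α‖ : ℂ) (‖β‖ : ℂ) x).ncard : ℕ) : ℝ) -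
      log x ^ 2 / (log ‖α‖ * log ‖β‖)| + |C| * log x) =o[atTop]
      (fun x : ℝ => log x ^ 2 / (log ‖α‖ * log ‖β‖)) := by
    refine h1.abs_left.add ?_
    exact (log_little hD).const_mul_left _
  refine IsBigO.trans_isLittleO ?_ h2
  refine IsBigO.of_bound 1 ?_
  filter_upwards [eventually_ge_atTop (2 : ℝ)] with x hx
  have hlx0 : 0 ≤ log x := log_nonneg (by linarith)
  have h3 := hC x hx (hfin' x)
  have h4 : (((prs α β x).ncard : ℕ) : ℝ) ≤ (((prs (‖α‖ : ℂ) (‖β‖ : ℂ) x).ncard : ℕ) : ℝ) := by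
    exact_mod_cast Set.ncard_le_ncard (hsub x) (hfin x)
  have h5 : C * log x ≤ |C| * log x := mul_le_mul_of_nonneg_right (le_abs_self _) hlx0
  have h6 := le_abs_self ((((prs (‖α‖ : ℂ) (‖β‖ : ℂ) x).ncard : ℕ) : ℝ) - log x ^ 2 / (log ‖α‖ * log ‖β‖))
  have h7 := abs_nonneg ((((prs (‖α‖ : ℂ) (‖β‖ : ℂ) x).ncard : ℕ) : ℝ) - log x ^ 2 / (log ‖α‖ * log ‖β‖))
  have h8 : 0 ≤ |C| * log x := by positivity
  simp only [Pi.sub_apply]
  rw [one_mul, norm_eq_abs, norm_of_nonneg (by positivity), abs_le]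
  constructor
  · linarith
  · linarith

end Pool.Agent.D0H19.CB
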