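import Pool.Agent.D0H19.CB.Phase

/-!
# Project CB: for fixed `β` the exceptional `α` have Hausdorff dimension zero
-/

set_option autoImplicit false

namespace Pool.Agent.D0H19.CB

open Real Filter
open Pool.Agent.Results.MP_606be1_nt.DilatedNearCoincidences (lin_bound)

/-- the index set -/
abbrev Ix (K : ℕ) : Type := {p : ℕ × ℕ × ℕ // p.2.1 ≤ K * (p.1 + 1) ∧ p.2.2 ≤ K * (p.1 + 1)}

/-- few indices up to `B` -/
lemma ix_count {q : ℝ} (hq : 1 < q) (K : ℕ) : ∀ ε : ℝ, 0 < ε → ∃ C : ℝ, ∀ B : ℝ, 1 ≤ B →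
    {i : Ix K | q ^ i.1.1 ≤ B}.Finite ∧
      (({i : Ix K | q ^ i.1.1 ≤ B}.ncard : ℕ) : ℝ) ≤ C * B ^ (0 + ε) := by
  intro ε hε
  have hlq : 0 < log q := log_pos hq
  refine ⟨((K : ℝ) + 1) ^ 2 * (3 / (ε * log q) + 1) ^ 3, fun B hB => ?_⟩
  have hB0 : 0 < B := by linarith
  set t : ℝ := log B / log q with ht
  have ht0 : 0 ≤ t := div_nonneg (log_nonneg hB) hlq.le
  set N : ℕ := ⌊t⌋₊ with hN
  have hNt : (N : ℝ) ≤ t := Nat.floor_le ht0
  set T : Finset (ℕ × ℕ × ℕ) := Finset.range (N + 1) ×ˢ Finset.range (K * (N + 1) + 1) ×ˢ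
    Finset.range (K * (N + 1) + 1) with hT
  have hmaps : Set.MapsTo Subtype.val {i : Ix K | q ^ i.1.1 ≤ B} (T : Set (ℕ × ℕ × ℕ)) := by
    rintro ⟨p, hp⟩ hi
    simp only [Set.mem_ofPred_eq] at hi
    have h1 : p.1 ≤ N := by
      rw [hN, Nat.le_floor_iff ht0, ht, le_div_iff₀ hlq, ← log_pow]
      exact log_le_log (by positivity) hi
    rw [Finset.mem_coe, hT, Finset.mem_product, Finset.mem_product, Finset.mem_range, Finset.mem_range,
      Finset.mem_range]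
    change p.1 < N + 1 ∧ p.2.1 < K * (N + 1) + 1 ∧ p.2.2 < K * (N + 1) + 1
    have h2 : K * (p.1 + 1) ≤ K * (N + 1) := Nat.mul_le_mul_left K (by omega)
    exact ⟨by omega, by omega, by omega⟩
  have hinj : Set.InjOn Subtype.val {i : Ix K | q ^ i.1.1 ≤ B} := Subtype.val_injective.injOn
  have hfin := Set.Finite.of_injOn hmaps hinj (Finset.finite_toSet T)
  refine ⟨hfin, ?_⟩
  have h1 := Set.ncard_le_ncard_of_injOn _ hmaps hinj (Finset.finite_toSet T)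
  rw [Set.ncard_coe_finset, hT, Finset.card_product, Finset.card_product, Finset.card_range,
    Finset.card_range] at h1
  have h2 : ((({i : Ix K | q ^ i.1.1 ≤ B}.ncard : ℕ)) : ℝ) ≤
      ((N : ℝ) + 1) * (((K : ℝ) * ((N : ℝ) + 1) + 1) * ((K : ℝ) * ((N : ℝ) + 1) + 1)) := by exact_mod_cast h1
  have hK0 : (0 : ℝ) ≤ K := Nat.cast_nonneg K
  have hN0 : (0 : ℝ) ≤ N := Nat.cast_nonneg N
  have h3 : ((N : ℝ) + 1) * (((K : ℝ) * ((N : ℝ) + 1) + 1) * ((K : ℝ) * ((N : ℝ) + 1) + 1)) ≤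
      ((K : ℝ) + 1) ^ 2 * (t + 1) ^ 3 := by
    have e1 : (K : ℝ) * ((N : ℝ) + 1) + 1 ≤ ((K : ℝ) + 1) * ((N : ℝ) + 1) := by nlinarith
    have e0 : 0 ≤ (K : ℝ) * ((N : ℝ) + 1) + 1 := by positivity
    calc ((N : ℝ) + 1) * (((K : ℝ) * ((N : ℝ) + 1) + 1) * ((K : ℝ) * ((N : ℝ) + 1) + 1))
        ≤ ((N : ℝ) + 1) * ((((K : ℝ) + 1) * ((N : ℝ) + 1)) * (((K : ℝ) + 1) * ((N : ℝ) + 1))) := by
          gcongr
      _ = ((K : ℝ) + 1) ^ 2 * ((N : ℝ) + 1) ^ 3 := by ring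
      _ ≤ ((K : ℝ) + 1) ^ 2 * (t + 1) ^ 3 := by gcongr
  have h4 : t + 1 ≤ (3 / (ε * log q) + 1) * B ^ (ε / 3) := by
    have e1 : log B ≤ B ^ (ε / 3) / (ε / 3) := log_le_rpow_div hB0.le (by positivity)
    have e2 : 1 ≤ B ^ (ε / 3) := one_le_rpow hB (by positivity)
    have e3 : t ≤ 3 / (ε * log q) * B ^ (ε / 3) := by
      rw [ht, div_le_iff₀ hlq]
      refine e1.trans (le_of_eq ?_)
      field_simp
    linarith
  calc ((({i : Ix K | q ^ i.1.1 ≤ B}.ncard : ℕ)) : ℝ) ≤ ((K : ℝ) + 1) ^ 2 * (t + 1) ^ 3 :=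
        h2.trans h3
    _ ≤ ((K : ℝ) + 1) ^ 2 * ((3 / (ε * log q) + 1) * B ^ (ε / 3)) ^ 3 := by gcongr
    _ = ((K : ℝ) + 1) ^ 2 * (3 / (ε * log q) + 1) ^ 3 * (B ^ (ε / 3)) ^ 3 := by ring
    _ = ((K : ℝ) + 1) ^ 2 * (3 / (ε * log q) + 1) ^ 3 * B ^ (0 + ε) := by
        rw [← rpow_natCast (B ^ (ε / 3)) 3, ← rpow_mul hB0.le]
        congr 2
        push_cast
        ring

/-- the roots -/
noncomputable def yy (β : ℂ) (p : ℕ × ℕ × ℕ) : ℂ :=
  Complex.exp ((p.2.1 * Complex.log β + 2 * π * Complex.I * p.2.2) / p.1)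

/-- an `n`-th root of `β ^ m` -/
lemma root_eq {β y : ℂ} (hβ : β ≠ 0) {n m : ℕ} (hn : 1 ≤ n) (h : y ^ n = β ^ m) :
    ∃ j < n, y = yy β (n, m, j) := by
  have hn0 : (n : ℂ) ≠ 0 := by exact_mod_cast (by omega : n ≠ 0)
  set y0 : ℂ := Complex.exp (m * Complex.log β / n) with hy0
  have hy00 : y0 ≠ 0 := Complex.exp_ne_zero _
  have h1 : y0 ^ n = β ^ m := by
    rw [hy0, ← Complex.exp_nat_mul, mul_div_cancel₀ _ hn0, Complex.exp_nat_mul, Complex.exp_log hβ]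
  have h2 : (y / y0) ^ n = 1 := by
    rw [div_pow, h, h1, div_self (pow_ne_zero _ hβ)]
  have : NeZero n := ⟨by omega⟩
  have hne : y / y0 ≠ 0 := by
    intro h0
    rw [h0, zero_pow (by omega)] at h2
    exact zero_ne_one h2
  obtain ⟨j, hj, hj'⟩ := (Complex.mem_rootsOfUnity n (Units.mk0 (y / y0) hne)).1 (by
    rw [mem_rootsOfUnity]
    ext
    simpa using h2)
  refine ⟨j, hj, ?_⟩
  rw [Units.val_mk0] at hj'
  rw [yy]
  simp only
  rw [add_div, Complex.exp_add, ← hy0, ← mul_div_assoc'] at *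
  rw [mul_comm, ← div_eq_iff hy00, ← hj']

/-- a near miss gives a root near `α` -/
lemma near_root {α β : ℂ} (hα : 1 < ‖α‖) (hβ : 1 < ‖β‖) {n m : ℕ} (hn : 1 ≤ n) (h : (n, m) ∈ nearC α β)
    (hs : 2 ≤ √(‖α‖ ^ n)) : ∃ j < n, dist (yy β (n, m, j)) α ≤ 3 * ‖α‖ / √(‖α‖ ^ n) := by
  obtain ⟨h1, -, -, -⟩ := near_basic hα hβ h
  simp only at h1
  have hα0 : α ≠ 0 := norm_ne_zero_iff.1 (by linarith)
  have hβ0 : β ≠ 0 := norm_ne_zero_iff.1 (by linarith)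
  have hn0 : (n : ℂ) ≠ 0 := by exact_mod_cast (by omega : n ≠ 0)
  set s : ℝ := √(‖α‖ ^ n) with hs'
  have hs2 : s ^ 2 = ‖α‖ ^ n := sq_sqrt (by positivity)
  have hs0 : 0 < s := by linarith
  set z : ℂ := β ^ m / α ^ n with hz
  have hz1 : ‖z - 1‖ ≤ 1 / s := by
    rw [hz, div_sub_one (pow_ne_zero _ hα0), norm_div, norm_pow, ← hs2, norm_sub_rev, div_le_div_iff₀ (by positivity) hs0]
    nlinarith
  have hz2 : ‖z - 1‖ ≤ 1 / 2 := hz1.trans (one_div_le_one_div_of_le (by norm_num) hs)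
  have hz0 : z ≠ 0 := div_ne_zero (pow_ne_zero _ hβ0) (pow_ne_zero _ hα0)
  have hl : ‖Complex.log z‖ ≤ 3 / 2 * (1 / s) := by
    have := Complex.norm_log_one_add_half_le_self hz2
    rw [add_sub_cancel] at this
    exact this.trans (by gcongr)
  set w : ℂ := Complex.exp (Complex.log z / n) with hw
  have hwn : w ^ n = z := by
    rw [hw, ← Complex.exp_nat_mul, mul_div_cancel₀ _ hn0, Complex.exp_log hz0]
  have hn1 : (1 : ℝ) ≤ n := by exact_mod_cast hn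
  have hln : ‖Complex.log z / n‖ ≤ 3 / 2 * (1 / s) := by
    rw [norm_div, Complex.norm_natCast]
    exact (div_le_self (norm_nonneg _) hn1).trans hl
  have hs3 : 3 / 2 * (1 / s) ≤ 1 := by
    rw [mul_one_div, div_le_one hs0]
    linarith
  have hw1 : ‖w - 1‖ ≤ 3 / s := by
    refine (Complex.norm_exp_sub_one_le (hln.trans hs3)).trans ?_
    calc 2 * ‖Complex.log z / n‖ ≤ 2 * (3 / 2 * (1 / s)) := by gcongr
      _ = 3 / s := by ring
  obtain ⟨j, hj, hy⟩ := root_eq hβ0 hn (y := α * w) (m := m) (by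
    rw [mul_pow, hwn, hz, mul_div_cancel₀ _ (pow_ne_zero _ hα0)])
  refine ⟨j, hj, ?_⟩
  rw [← hy, dist_eq_norm, show α * w - α = α * (w - 1) by ring, norm_mul]
  calc ‖α‖ * ‖w - 1‖ ≤ ‖α‖ * (3 / s) := by gcongr
    _ = 3 * ‖α‖ / s := by ring

theorem dim_alpha {β : ℂ} (hβ : 1 < ‖β‖) : dimH {α : ℂ | 1 < ‖α‖ ∧ (nearC α β).Infinite} = 0 := by
  have h : ∀ k : ℕ, dimH {α : ℂ | (1 + 1 / ((k : ℝ) + 1) ≤ ‖α‖ ∧ ‖α‖ ≤ (k : ℝ) + 2) ∧
      (nearC α β).Infinite} = 0 := by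
    intro k
    have hk0 : (0 : ℝ) ≤ k := Nat.cast_nonneg k
    set L : ℝ := 1 + 1 / ((k : ℝ) + 1) with hL
    have hL1 : 1 < L := by
      have : 0 < 1 / ((k : ℝ) + 1) := by positivity
      linarith
    have hsL : 1 < √L := by
      rw [lt_sqrt (by norm_num)]
      linarith
    obtain ⟨K0, hK0⟩ := lin_bound (Y := (k : ℝ) + 2) (D := 2) hβ (by linarith) (by norm_num)
    set K : ℕ := K0 + 1 with hK
    have hd := Pool.Agent.R425.MK.dimH_balls (X := ℂ) (fun i : Ix K => yy β i.1)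
      (fun i : Ix K => √L ^ i.1.1) (fun i => one_le_pow₀ hsL.le) (le_refl (0 : ℝ)) one_pos
      (by positivity : 0 < 3 * ((k : ℝ) + 2)) (ix_count hsL K)
    rw [zero_div, ENNReal.ofReal_zero] at hd
    refine le_antisymm ((dimH_mono ?_).trans hd) bot_le
    rintro α ⟨⟨haL, hak⟩, hinf⟩
    have hα : 1 < ‖α‖ := by linarith
    simp only [Set.mem_ofPred_eq]
    intro hfin
    apply hinf
    -- small `n`
    have hlα : 0 < log ‖α‖ := log_pos hα
    have hsmall : {t ∈ nearC α β | (t.1 : ℝ) ≤ 2 * log 2 / log ‖α‖}.Finite := near_bdd hα hβ _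
    refine (hsmall.union (hfin.image fun i : Ix K => (i.1.1, i.1.2.1))).subset ?_
    rintro ⟨n, m⟩ ht
    by_cases hn : (n : ℝ) ≤ 2 * log 2 / log ‖α‖
    · exact Or.inl ⟨ht, hn⟩
    · right
      rw [not_le, div_lt_iff₀ hlα] at hn
      have hl2 : 0 < log 2 := log_pos (by norm_num)
      have hn1 : 1 ≤ n := by
        by_contra h0
        have : n = 0 := by omega
        rw [this, Nat.cast_zero, zero_mul] at hn
        linarith
      have hs : 2 ≤ √(‖α‖ ^ n) := by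
        apply le_sqrt_of_sq_le
        rw [← log_le_log_iff (by norm_num) (by positivity), log_pow, log_pow]
        push_cast
        linarith
      obtain ⟨j, hj, hdist⟩ := near_root hα hβ hn1 ht hs
      obtain ⟨-, -, hb, -⟩ := near_basic hα hβ ht
      simp only at hb
      have hm : m ≤ K0 * (n + 1) := by
        refine hK0 n m (hb.trans ?_)
        gcongr
      have hm' : m ≤ K * (n + 1) := hm.trans (Nat.mul_le_mul_right _ (by omega))
      have hj' : j ≤ K * (n + 1) := by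
        calc j ≤ 1 * (n + 1) := by omega
          _ ≤ K * (n + 1) := Nat.mul_le_mul_right _ (by omega)
      refine ⟨⟨(n, m, j), hm', hj'⟩, ?_, rfl⟩
      simp only [Set.mem_ofPred_eq]
      have hq0 : 0 < √L ^ n := by positivity
      have ha0 : (0 : ℝ) ≤ ‖α‖ := norm_nonneg _
      rw [rpow_neg hq0.le, rpow_one, ← div_eq_mul_inv]
      refine hdist.trans ?_
      have h1 : √L ^ n ≤ √(‖α‖ ^ n) := by
        have h2 : √(‖α‖ ^ n) = √‖α‖ ^ n := by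
          rw [← sqrt_sq (by positivity : 0 ≤ √‖α‖ ^ n), ← pow_mul, mul_comm n 2, pow_mul, sq_sqrt ha0]
        rw [h2]
        exact pow_le_pow_left₀ (sqrt_nonneg _) (sqrt_le_sqrt haL) _
      gcongr
  have hsub : {α : ℂ | 1 < ‖α‖ ∧ (nearC α β).Infinite} ⊆
      ⋃ k : ℕ, {α : ℂ | (1 + 1 / ((k : ℝ) + 1) ≤ ‖α‖ ∧ ‖α‖ ≤ (k : ℝ) + 2) ∧
        (nearC α β).Infinite} := by
    rintro α ⟨h1, h2⟩
    obtain ⟨k, hk⟩ := exists_nat_ge (max ‖α‖ (1 / (‖α‖ - 1)))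
    have hk1 : ‖α‖ ≤ k := (le_max_left _ _).trans hk
    have hk2 : 1 / (‖α‖ - 1) ≤ k := (le_max_right _ _).trans hk
    refine Set.mem_iUnion.2 ⟨k, ⟨?_, by linarith⟩, h2⟩
    have ha1 : 0 < ‖α‖ - 1 := by linarith
    have h3 : 1 / ((k : ℝ) + 1) ≤ ‖α‖ - 1 := by
      rw [div_le_iff₀ (by positivity)]
      rw [div_le_iff₀ ha1] at hk2
      nlinarith
    linarith
  refine le_antisymm ((dimH_mono hsub).trans ?_) bot_le
  rw [dimH_iUnion]
  exact iSup_le fun k => (h k).le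

end Pool.Agent.D0H19.CB
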