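import Mathlib
import Pool.Agent.N750.Sch
import Pool.Agent.NH29.GN.U1

/-!
# Project CB: elements of a group with two generators which are close to one (subspace theorem)
-/

set_option autoImplicit false

open Filter Finset

namespace Pool.Agent.D0H19.CB

open NumberField IsDedekindDomain Height
open Pool.Agent.W180.OP (Pl av wt nrm)

section K

variable {K : Type} [Field K] [NumberField K]

/-- For all but finitely many `(n, m)` either `g ^ n = h ^ m` or `|g ^ n / h ^ m - 1| ≥ exp (- δ (n + m))`. -/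
theorem near_fin (φ : K →+* ℂ) {g h : K} (hg : g ≠ 0) (hh : h ≠ 0) {δ : ℝ} (hδ : 0 < δ) :
    {t : ℕ × ℕ | g ^ t.1 ≠ h ^ t.2 ∧ ‖φ (g ^ t.1 / h ^ t.2) - 1‖ < Real.exp (-(δ * (t.1 + t.2)))}.Finite := by
  classical
  by_contra hinf
  set B : Set (ℕ × ℕ) :=
    {t | g ^ t.1 ≠ h ^ t.2 ∧ ‖φ (g ^ t.1 / h ^ t.2) - 1‖ < Real.exp (-(δ * (t.1 + t.2)))} with hB
  set 𝓕 : Filter (ℕ × ℕ) := cofinite ⊓ 𝓟 B with h𝓕
  have hne : 𝓕.NeBot := by
    rw [h𝓕, ← Filter.frequently_mem_iff_neBot]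
    rw [Filter.frequently_cofinite_iff_infinite]
    exact hinf
  -- finite sets of pairs are negligible
  have hev : ∀ P : ℕ × ℕ → Prop, {t ∈ B | ¬ P t}.Finite → ∀ᶠ t in 𝓕, P t := by
    intro P hP
    rw [h𝓕, eventually_inf_principal, Filter.eventually_cofinite]
    refine hP.subset ?_
    intro t ht
    simp only [Set.mem_ofPred_eq, Classical.not_imp] at ht
    exact ht
  -- bounded `n + m`
  have hbd : ∀ M : ℝ, {t : ℕ × ℕ | ((t.1 : ℝ) + t.2) ≤ M}.Finite := by
    intro M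
    refine ((Set.finite_le_nat ⌈M⌉₊).prod (Set.finite_le_nat ⌈M⌉₊)).subset ?_
    intro t ht
    have h1 : (t.1 : ℝ) ≤ M := by
      have : (0 : ℝ) ≤ t.2 := Nat.cast_nonneg _
      have h2 : ((t.1 : ℝ) + t.2) ≤ M := ht
      linarith
    have h2 : (t.2 : ℝ) ≤ M := by
      have : (0 : ℝ) ≤ t.1 := Nat.cast_nonneg _
      have h2 : ((t.1 : ℝ) + t.2) ≤ M := ht
      linarith
    exact ⟨by exact_mod_cast h1.trans (Nat.le_ceil M), by exact_mod_cast h2.trans (Nat.le_ceil M)⟩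
  -- the quotients
  set u : ℕ × ℕ → K := fun t => g ^ t.1 / h ^ t.2 with hu
  have hu0 : ∀ t, u t ≠ 0 := fun t => div_ne_zero (pow_ne_zero _ hg) (pow_ne_zero _ hh)
  have hu1 : ∀ t ∈ B, u t ≠ 1 := by
    intro t ht h1
    exact ht.1 ((div_eq_one_iff_eq (pow_ne_zero _ hh)).1 h1)
  -- a fixed value is taken only finitely often
  have hval : ∀ c : K, {t ∈ B | u t = c}.Finite := by
    intro c
    by_cases hc : c = 1
    · subst hc
      convert Set.finite_empty
      ext t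
      simp only [Set.mem_ofPred_eq, Set.mem_empty_iff_false, iff_false, not_and]
      exact fun ht => hu1 t ht
    · have hpos : 0 < ‖φ c - 1‖ := by
        rw [norm_pos_iff, sub_ne_zero]
        intro h1
        exact hc (φ.injective (by rw [h1, map_one]))
      refine (hbd (-Real.log ‖φ c - 1‖ / δ)).subset ?_
      rintro t ⟨ht, rfl⟩
      have h1 := ht.2
      show (t.1 : ℝ) + t.2 ≤ _
      rw [le_div_iff₀ hδ]
      have h2 := Real.log_lt_log hpos h1
      rw [Real.log_exp] at h2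
      linarith
  have hvalf : ∀ s : Set K, s.Finite → {t ∈ B | u t ∈ s}.Finite := by
    intro s hs
    have : {t ∈ B | u t ∈ s} = ⋃ c ∈ s, {t ∈ B | u t = c} := by
      ext t
      simp only [Set.mem_ofPred_eq, Set.mem_iUnion, exists_prop]
      constructor
      · rintro ⟨h1, h2⟩
        exact ⟨u t, h2, h1, rfl⟩
      · rintro ⟨c, h1, h2, h3⟩
        exact ⟨h2, h3 ▸ h1⟩
    rw [this]
    exact hs.biUnion fun c _ => hval c
  -- the height tends to infinity
  have hN : Tendsto (fun t => logHeight (![u t, 1] : Fin 2 → K)) 𝓕 atTop := by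
    rw [tendsto_atTop]
    intro M
    apply hev
    refine (hvalf _ (NumberField.finite_setOfPred_logHeight₁_le K M)).subset ?_
    rintro t ⟨ht, h1⟩
    refine ⟨ht, ?_⟩
    show logHeight₁ (u t) ≤ M
    rw [logHeight₁_eq_logHeight]
    exact (not_le.1 h1).le
  -- independence
  have hind : ∀ d : Fin 2 → K, d ≠ 0 → ∀ᶠ t in 𝓕, ∑ j, d j * (![u t, 1] : Fin 2 → K) j ≠ 0 := by
    intro d hd
    apply hev
    refine (hval (-(d 1) / d 0)).subset ?_
    rintro t ⟨ht, h1⟩
    refine ⟨ht, ?_⟩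
    rw [not_not, Fin.sum_univ_two] at h1
    simp only [Matrix.cons_val_zero, Matrix.cons_val_one, mul_one] at h1
    have hd0 : d 0 ≠ 0 := by
      intro h0
      rw [h0, zero_mul, zero_add] at h1
      apply hd
      ext j
      fin_cases j
      · exact h0
      · exact h1
    rw [eq_div_iff hd0]
    linear_combination h1
  -- the set of places
  obtain ⟨S, hS, hSu⟩ := Pool.Agent.NH29.GN.U1.exists_S (F := K)
    (Subgroup.closure {Units.mk0 g hg, Units.mk0 h hh}) ⟨{Units.mk0 g hg, Units.mk0 h hh}, by simp⟩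
  have hSt : ∀ v : HeightOneSpectrum (𝓞 K), Sum.inr v ∉ S → ∀ t, av (Sum.inr v : Pl K) (u t) = 1 := by
    intro v hv t
    have h1 := hSu v hv (Units.mk0 g hg ^ t.1 / Units.mk0 h hh ^ t.2) (Subgroup.div_mem _
      (Subgroup.pow_mem _ (Subgroup.subset_closure (by simp)) _)
      (Subgroup.pow_mem _ (Subgroup.subset_closure (by simp)) _))
    simpa [hu] using h1
  set v₀ : Pl K := Sum.inl (InfinitePlace.mk φ) with hv₀
  have hav : ∀ x : K, av v₀ x = ‖φ x‖ := fun x => rfl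
  -- the forms
  set F : Pl K → Fin 2 → Fin 2 → K := fun v => if v = v₀ then ![![1, -1], ![0, 1]] else ![![1, 0], ![0, 1]] with hF
  have hdet : ∀ v ∈ S, (Matrix.of (F v)).det ≠ 0 := by
    intro v _
    by_cases hv : v = v₀
    · simp [hF, hv, Matrix.det_fin_two]
    · simp [hF, hv, Matrix.det_fin_two]
  -- the height bound
  obtain ⟨C, hC⟩ : ∃ C : ℝ, C = logHeight₁ g + logHeight₁ h := ⟨_, rfl⟩
  have hCg : 0 ≤ logHeight₁ g := by positivity
  have hCh : 0 ≤ logHeight₁ h := by positivity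
  have hC0 : 0 ≤ C := by rw [hC]; positivity
  have hht : ∀ t : ℕ × ℕ, logHeight (![u t, 1] : Fin 2 → K) ≤ C * (t.1 + t.2) := by
    intro t
    rw [← logHeight₁_eq_logHeight, hu]
    show logHeight₁ (g ^ t.1 / h ^ t.2) ≤ _
    rw [div_eq_mul_inv]
    refine (logHeight₁_mul_le _ _).trans ?_
    rw [logHeight₁_inv, logHeight₁_pow, logHeight₁_pow, hC]
    have h1 : (0 : ℝ) ≤ t.1 := Nat.cast_nonneg _
    have h2 : (0 : ℝ) ≤ t.2 := Nat.cast_nonneg _
    nlinarith
  obtain ⟨ε, hε⟩ : ∃ ε : ℝ, ε = δ / (2 * (C + 1)) := ⟨_, rfl⟩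
  have hε0 : 0 < ε := by rw [hε]; positivity
  have key := Pool.Agent.N750.schSame 𝓕 (n := 2) (by norm_num) S F hdet (fun t => ![u t, 1]) hN hind ε hε0
  have hlarge : ∀ᶠ t in 𝓕, 2 * Real.log 2 / δ < (t.1 : ℝ) + t.2 :=
    hev _ ((hbd (2 * Real.log 2 / δ)).subset fun t ht => not_lt.1 ht.2)
  have hmem : ∀ᶠ t in 𝓕, t ∈ B := by
    rw [h𝓕]
    exact mem_inf_of_right (mem_principal_self B)
  obtain ⟨t, hkey, hl, ht⟩ := (key.and (hlarge.and hmem)).exists
  -- the sum
  have hlt := ht.2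
  have hne1 : φ (u t) - 1 ≠ 0 := by
    rw [sub_ne_zero]
    intro h1
    exact hu1 t ht (φ.injective (by rw [h1, map_one]))
  have hx0 : (![u t, 1] : Fin 2 → K) ≠ 0 := fun h0 => one_ne_zero (congrFun h0 1)
  have hsum1 : logHeight (![u t, 1] : Fin 2 → K) = ∑ p ∈ S, wt p * Real.log (nrm (av p) (![u t, 1] : Fin 2 → K)) := by
    apply Pool.Agent.NH29.GN.U1.height_eq (by norm_num) S hS
    · intro i
      fin_cases i
      · exact hu0 t
      · exact one_ne_zero
    · intro v hv i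
      fin_cases i
      · exact hSt v hv t
      · exact map_one _
  have hsum2 : ∑ p ∈ S, wt p * Real.log (av p (u t)) = 0 :=
    Pool.Agent.NH29.GN.U1.prod_formula S hS (u t) (hu0 t) (fun v hv => hSt v hv t)
  have hterm : ∀ v ∈ S, wt v * ∑ a, (Real.log (nrm (av v) (![u t, 1] : Fin 2 → K)) -
      Real.log (av v (∑ j, F v a j * (![u t, 1] : Fin 2 → K) j))) =
      2 * (wt v * Real.log (nrm (av v) (![u t, 1] : Fin 2 → K))) - wt v * Real.log (av v (u t)) -
        (if v = v₀ then wt v * (Real.log ‖φ (u t) - 1‖ - Real.log ‖φ (u t)‖) else 0) := by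
    intro v _
    rw [Fin.sum_univ_two, Fin.sum_univ_two, Fin.sum_univ_two]
    by_cases hv : v = v₀
    · have e1 : F v 0 0 * (![u t, 1] : Fin 2 → K) 0 + F v 0 1 * (![u t, 1] : Fin 2 → K) 1 = u t - 1 := by
        simp [hF, hv, sub_eq_add_neg]
      have e2 : F v 1 0 * (![u t, 1] : Fin 2 → K) 0 + F v 1 1 * (![u t, 1] : Fin 2 → K) 1 = 1 := by
        simp [hF, hv]
      rw [e1, e2, if_pos hv, map_one, Real.log_one, hv, hav (u t - 1), hav (u t), map_sub, map_one]
      ring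
    · have e1 : F v 0 0 * (![u t, 1] : Fin 2 → K) 0 + F v 0 1 * (![u t, 1] : Fin 2 → K) 1 = u t := by
        simp [hF, hv]
      have e2 : F v 1 0 * (![u t, 1] : Fin 2 → K) 0 + F v 1 1 * (![u t, 1] : Fin 2 → K) 1 = 1 := by
        simp [hF, hv]
      rw [e1, e2, if_neg hv, map_one, Real.log_one]
      ring
  rw [Finset.sum_congr rfl hterm, Finset.sum_sub_distrib, Finset.sum_sub_distrib, ← Finset.mul_sum, ← hsum1,
    hsum2, Finset.sum_ite_eq' S v₀, if_pos (hS _)] at hkey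
  push_cast at hkey
  -- the weight
  have hwt : 1 ≤ wt v₀ := by
    show (1 : ℝ) ≤ ((InfinitePlace.mk φ).mult : ℝ)
    exact_mod_cast InfinitePlace.mult_pos
  have hT : 0 < (t.1 : ℝ) + t.2 := lt_trans (by positivity) hl
  have hsmall : Real.exp (-(δ * (t.1 + t.2))) ≤ 1 / 2 := by
    rw [show (1 / 2 : ℝ) = Real.exp (-Real.log 2) by rw [Real.exp_neg, Real.exp_log (by norm_num)]; norm_num]
    apply Real.exp_le_exp.2
    rw [div_lt_iff₀ hδ] at hl
    have := Real.log_pos (by norm_num : (1 : ℝ) < 2)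
    nlinarith
  have hφ : 1 / 2 ≤ ‖φ (u t)‖ := by
    have h1 : ‖(1 : ℂ)‖ ≤ ‖φ (u t)‖ + ‖φ (u t) - 1‖ := by
      calc ‖(1 : ℂ)‖ = ‖φ (u t) - (φ (u t) - 1)‖ := by rw [sub_sub_cancel]
        _ ≤ _ := norm_sub_le _ _
    rw [norm_one] at h1
    have h2 : ‖φ (u t) - 1‖ < Real.exp (-(δ * (t.1 + t.2))) := hlt
    linarith
  have h3 : Real.log ‖φ (u t) - 1‖ < -(δ * (t.1 + t.2)) := by
    have := Real.log_lt_log (norm_pos_iff.2 hne1) hlt
    rwa [Real.log_exp] at this
  have h4 : -Real.log 2 ≤ Real.log ‖φ (u t)‖ := by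
    rw [← Real.log_inv]
    apply Real.log_le_log (by norm_num)
    rw [show (2 : ℝ)⁻¹ = 1 / 2 by norm_num]
    exact hφ
  have h5 : ε * logHeight (![u t, 1] : Fin 2 → K) ≤ δ / 2 * (t.1 + t.2) := by
    calc ε * logHeight (![u t, 1] : Fin 2 → K) ≤ ε * (C * (t.1 + t.2)) := by
          exact mul_le_mul_of_nonneg_left (hht t) hε0.le
      _ ≤ ε * ((C + 1) * (t.1 + t.2)) := by
          apply mul_le_mul_of_nonneg_left _ hε0.le
          nlinarith
      _ = _ := by rw [hε]; field_simp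
  have h6 : 0 ≤ -(Real.log ‖φ (u t) - 1‖ - Real.log ‖φ (u t)‖) := by
    rw [div_lt_iff₀ hδ] at hl
    have := Real.log_pos (by norm_num : (1 : ℝ) < 2)
    nlinarith
  have h7 : -(Real.log ‖φ (u t) - 1‖ - Real.log ‖φ (u t)‖) ≤
      wt v₀ * -(Real.log ‖φ (u t) - 1‖ - Real.log ‖φ (u t)‖) := by
    nlinarith
  rw [div_lt_iff₀ hδ] at hl
  nlinarith [h3, h4, h5, h7, hkey, hl]

end K

/-- The same for complex algebraic numbers. -/
theorem near_alg {g h : ℂ} (hg : g ≠ 0) (hh : h ≠ 0) (hga : IsAlgebraic ℚ g) (hha : IsAlgebraic ℚ h) {δ : ℝ}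
    (hδ : 0 < δ) :
    {t : ℕ × ℕ | g ^ t.1 ≠ h ^ t.2 ∧ ‖g ^ t.1 / h ^ t.2 - 1‖ < Real.exp (-(δ * (t.1 + t.2)))}.Finite := by
  let L := IntermediateField.adjoin ℚ ({g, h} : Set ℂ)
  have hfd : FiniteDimensional ℚ L := by
    apply IntermediateField.finiteDimensional_adjoin
    intro x hx
    rcases hx with rfl | hx
    · exact hga.isIntegral
    · rw [Set.mem_singleton_iff] at hx
      rw [hx]
      exact hha.isIntegral
  have : NumberField L := { to_charZero := inferInstance, to_finiteDimensional := hfd }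
  have hgL : g ∈ L := IntermediateField.subset_adjoin _ _ (by simp)
  have hhL : h ∈ L := IntermediateField.subset_adjoin _ _ (by simp)
  let φ : L →+* ℂ := algebraMap L ℂ
  have hφ : ∀ x : L, φ x = (x : ℂ) := fun x => rfl
  have key := near_fin φ (g := ⟨g, hgL⟩) (h := ⟨h, hhL⟩) (fun h0 => hg (congrArg Subtype.val h0))
    (fun h0 => hh (congrArg Subtype.val h0)) hδ
  refine key.subset ?_
  rintro t ⟨h1, h2⟩
  refine ⟨fun h3 => h1 ?_, ?_⟩
  · have := congrArg (Subtype.val : L → ℂ) h3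
    simpa using this
  · rw [hφ]
    simpa using h2

end Pool.Agent.D0H19.CB
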