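import Pool.Agent.D0H19.CB.Count

/-!
# Project CB: near misses and their phases
-/

set_option autoImplicit false

namespace Pool.Agent.D0H19.CB

open Real Filter

/-- apart from equalities, `g ^ n / h ^ m` is not exponentially close to one, finitely many pairs excepted -/
def Good (g h : ℂ) : Prop :=
  ∀ δ : ℝ, 0 < δ → {t : ℕ × ℕ | g ^ t.1 ≠ h ^ t.2 ∧ ‖g ^ t.1 / h ^ t.2 - 1‖ < exp (-(δ * (t.1 + t.2)))}.Finite

/-- multiplicative independence of `α`, `β` with `|α|, |β| > 1` -/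
def MulIndep (α β : ℂ) : Prop := ∀ p q : ℕ, 1 ≤ p → 1 ≤ q → α ^ p ≠ β ^ q

section

variable {α β : ℂ}

/-- basic inequalities for near misses -/
theorem near_basic (hα : 1 < ‖α‖) (hβ : 1 < ‖β‖) {t : ℕ × ℕ} (ht : t ∈ nearC α β) :
    ‖α ^ t.1 - β ^ t.2‖ < √(‖α‖ ^ t.1) ∧ |‖α‖ ^ t.1 - ‖β‖ ^ t.2| < √(‖α‖ ^ t.1) ∧
      ‖β‖ ^ t.2 ≤ 2 * ‖α‖ ^ t.1 ∧ ‖α‖ ^ t.1 ≤ 4 * ‖β‖ ^ t.2 := by
  have h0 : ‖α ^ t.1 - β ^ t.2‖ ^ 2 < ‖α‖ ^ t.1 := ht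
  have h1 : ‖α ^ t.1 - β ^ t.2‖ < √(‖α‖ ^ t.1) := lt_sqrt_of_sq_lt h0
  have h2 : |‖α‖ ^ t.1 - ‖β‖ ^ t.2| ≤ ‖α ^ t.1 - β ^ t.2‖ := by
    have := abs_norm_sub_norm_le (α ^ t.1) (β ^ t.2)
    rwa [norm_pow, norm_pow] at this
  have h3 := abs_lt.1 (h2.trans_lt h1)
  have ha : 1 ≤ ‖α‖ ^ t.1 := one_le_pow₀ hα.le
  have hb : 1 ≤ ‖β‖ ^ t.2 := one_le_pow₀ hβ.le
  have hs : √(‖α‖ ^ t.1) ^ 2 = ‖α‖ ^ t.1 := sq_sqrt (by linarith)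
  have hs1 : 1 ≤ √(‖α‖ ^ t.1) := one_le_sqrt.2 ha
  refine ⟨h1, h2.trans_lt h1, ?_, ?_⟩
  · nlinarith [h3.1]
  · by_cases h4 : √(‖α‖ ^ t.1) ≤ 2
    · nlinarith
    · rw [not_le] at h4
      nlinarith [h3.2]

theorem near_log (hα : 1 < ‖α‖) (hβ : 1 < ‖β‖) {t : ℕ × ℕ} (ht : t ∈ nearC α β) :
    |t.1 * log ‖α‖ - t.2 * log ‖β‖| ≤ 2 * log 2 := by
  obtain ⟨-, -, h1, h2⟩ := near_basic hα hβ ht
  have ha : 0 < ‖α‖ ^ t.1 := by positivity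
  have hb : 0 < ‖β‖ ^ t.2 := by positivity
  have h3 := log_le_log hb h1
  have h4 := log_le_log ha h2
  rw [log_mul (by norm_num) ha.ne', log_pow, log_pow] at h3
  rw [log_mul (by norm_num) hb.ne', log_pow, log_pow, show (4 : ℝ) = 2 ^ 2 by norm_num, log_pow] at h4
  have h5 : 0 < log 2 := log_pos (by norm_num)
  push_cast at h4
  rw [abs_le]
  constructor <;> linarith

/-- near misses with bounded `n` -/
theorem near_bdd (hα : 1 < ‖α‖) (hβ : 1 < ‖β‖) (N : ℝ) : {t ∈ nearC α β | (t.1 : ℝ) ≤ N}.Finite := by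
  have hlβ : 0 < log ‖β‖ := log_pos hβ
  have hlα : 0 < log ‖α‖ := log_pos hα
  set M : ℝ := (2 * log 2 + N * log ‖α‖) / log ‖β‖ with hM
  refine ((Set.finite_le_nat ⌈N⌉₊).prod (Set.finite_le_nat ⌈M⌉₊)).subset ?_
  rintro t ⟨ht, hN⟩
  have h1 := (abs_le.1 (near_log hα hβ ht)).1
  have h2 : (t.2 : ℝ) ≤ M := by
    rw [hM, le_div_iff₀ hlβ]
    nlinarith
  exact ⟨by exact_mod_cast hN.trans (Nat.le_ceil N), by exact_mod_cast h2.trans (Nat.le_ceil M)⟩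

/-- the general principle -/
theorem near_good (hα : 1 < ‖α‖) (hβ : 1 < ‖β‖) {g h : ℂ} (hG : Good g h)
    (hle : ∀ t ∈ nearC α β, 2 ≤ √(‖α‖ ^ t.1) → ‖g ^ t.1 / h ^ t.2 - 1‖ ≤ 2 / √(‖α‖ ^ t.1)) :
    {t ∈ nearC α β | g ^ t.1 ≠ h ^ t.2}.Finite := by
  have hlβ : 0 < log ‖β‖ := log_pos hβ
  have hlα : 0 < log ‖α‖ := log_pos hα
  have hl2 : 0 < log 2 := log_pos (by norm_num)
  set κ : ℝ := log ‖α‖ / log ‖β‖ with hκ
  have hκ0 : 0 < κ := div_pos hlα hlβ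
  set c : ℝ := 2 * log 2 / log ‖β‖ with hc
  have hc0 : 0 < c := by positivity
  set δ : ℝ := log ‖α‖ / (4 * (1 + κ)) with hδ
  have hδ0 : 0 < δ := by positivity
  set N : ℝ := 4 * (log 2 + δ * c + 1) / log ‖α‖ with hN
  refine ((near_bdd hα hβ N).union (hG δ hδ0)).subset ?_
  rintro t ⟨ht, hne⟩
  by_cases hn : (t.1 : ℝ) ≤ N
  · exact Or.inl ⟨ht, hn⟩
  · right
    rw [not_le, hN, div_lt_iff₀ hlα] at hn
    refine ⟨hne, ?_⟩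
    have hpos : 0 < ‖α‖ ^ t.1 := by positivity
    have hsq : √(‖α‖ ^ t.1) = exp (t.1 * log ‖α‖ / 2) := by
      rw [sqrt_eq_rpow, rpow_def_of_pos hpos, log_pow]
      congr 1
      ring
    have h2s : 2 ≤ √(‖α‖ ^ t.1) := by
      rw [hsq, ← exp_log (by norm_num : (0 : ℝ) < 2)]
      apply exp_le_exp.2
      have : 0 < δ * c := by positivity
      rw [exp_log (by norm_num)]
      nlinarith
    refine (hle t ht h2s).trans_lt ?_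
    rw [hsq, ← exp_log (by norm_num : (0 : ℝ) < 2), ← exp_sub, exp_log (by norm_num : (0 : ℝ) < 2)]
    apply exp_lt_exp.2
    have h3 := (abs_le.1 (near_log hα hβ ht)).1
    have h4 : (t.2 : ℝ) ≤ κ * t.1 + c := by
      have : (t.2 : ℝ) ≤ (t.1 * log ‖α‖ + 2 * log 2) / log ‖β‖ := by
        rw [le_div_iff₀ hlβ]
        linarith
      rw [hκ, hc]
      calc (t.2 : ℝ) ≤ (t.1 * log ‖α‖ + 2 * log 2) / log ‖β‖ := this
        _ = _ := by ring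
    have h5 : δ * (t.1 + t.2) ≤ t.1 * log ‖α‖ / 4 + δ * c := by
      calc δ * (t.1 + t.2) ≤ δ * (t.1 + (κ * t.1 + c)) := by gcongr
        _ = δ * (1 + κ) * t.1 + δ * c := by ring
        _ = t.1 * log ‖α‖ / 4 + δ * c := by
          rw [hδ]
          field_simp
    linarith

/-- the phase `α / |α|` -/
theorem phase_norm (hα : 1 < ‖α‖) : ‖α / (‖α‖ : ℂ)‖ = 1 := by
  rw [norm_div, Complex.norm_real, norm_norm, div_self (by linarith)]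

theorem near_phase (hα : 1 < ‖α‖) (hβ : 1 < ‖β‖) (hG : Good (α / (‖α‖ : ℂ)) (β / (‖β‖ : ℂ))) :
    {t ∈ nearC α β | (α / (‖α‖ : ℂ)) ^ t.1 ≠ (β / (‖β‖ : ℂ)) ^ t.2}.Finite := by
  refine near_good hα hβ hG fun t ht _ => ?_
  obtain ⟨h1, h2, -, -⟩ := near_basic hα hβ ht
  set ζ : ℂ := α / (‖α‖ : ℂ) with hζ
  set ξ : ℂ := β / (‖β‖ : ℂ) with hξ
  have hα0 : (‖α‖ : ℂ) ≠ 0 := by exact_mod_cast (by linarith : ‖α‖ ≠ 0)
  have hβ0 : (‖β‖ : ℂ) ≠ 0 := by exact_mod_cast (by linarith : ‖β‖ ≠ 0)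
  have hζ1 : ‖ζ‖ = 1 := phase_norm hα
  have hξ1 : ‖ξ‖ = 1 := phase_norm hβ
  have hξ0 : ξ ^ t.2 ≠ 0 := pow_ne_zero _ (norm_ne_zero_iff.1 (by rw [hξ1]; norm_num))
  have hs0 : 0 < √(‖α‖ ^ t.1) := by positivity
  have hs : √(‖α‖ ^ t.1) ^ 2 = ‖α‖ ^ t.1 := sq_sqrt (by positivity)
  have e1 : ‖ζ ^ t.1 / ξ ^ t.2 - 1‖ = ‖ζ ^ t.1 - ξ ^ t.2‖ := by
    rw [div_sub_one hξ0, norm_div, norm_pow ξ, hξ1, one_pow, div_one]
  have eα : α = (‖α‖ : ℂ) * ζ := by rw [hζ]; field_simp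
  have eβ : β = (‖β‖ : ℂ) * ξ := by rw [hξ]; field_simp
  have e2 : ((‖α‖ ^ t.1 : ℝ) : ℂ) * (ζ ^ t.1 - ξ ^ t.2) =
      (α ^ t.1 - β ^ t.2) - ((‖α‖ ^ t.1 - ‖β‖ ^ t.2 : ℝ) : ℂ) * ξ ^ t.2 := by
    conv_rhs => rw [eα, eβ]
    have n1 : ‖(‖α‖ : ℂ) * ζ‖ = ‖α‖ := by rw [← eα]
    have n2 : ‖(‖β‖ : ℂ) * ξ‖ = ‖β‖ := by rw [← eβ]
    rw [n1, n2, mul_pow, mul_pow]
    push_cast
    ring
  have e3 : ‖α‖ ^ t.1 * ‖ζ ^ t.1 - ξ ^ t.2‖ < 2 * √(‖α‖ ^ t.1) := by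
    have h3 := congrArg norm e2
    rw [norm_mul, Complex.norm_real, norm_of_nonneg (by positivity)] at h3
    rw [h3]
    refine (norm_sub_le _ _).trans_lt ?_
    rw [norm_mul, Complex.norm_real, norm_pow ξ, hξ1, one_pow, mul_one, norm_eq_abs]
    linarith
  rw [e1, le_div_iff₀ hs0]
  have e4 : √(‖α‖ ^ t.1) * (√(‖α‖ ^ t.1) * ‖ζ ^ t.1 - ξ ^ t.2‖) < √(‖α‖ ^ t.1) * 2 := by
    calc √(‖α‖ ^ t.1) * (√(‖α‖ ^ t.1) * ‖ζ ^ t.1 - ξ ^ t.2‖)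
        = √(‖α‖ ^ t.1) ^ 2 * ‖ζ ^ t.1 - ξ ^ t.2‖ := by ring
      _ = ‖α‖ ^ t.1 * ‖ζ ^ t.1 - ξ ^ t.2‖ := by rw [hs]
      _ < _ := by rw [mul_comm (√(‖α‖ ^ t.1)) 2]; exact e3
  have e5 := lt_of_mul_lt_mul_left e4 hs0.le
  rw [mul_comm]
  exact e5.le

theorem half_le (hα : 1 < ‖α‖) (hβ : 1 < ‖β‖) {t : ℕ × ℕ} (ht : t ∈ nearC α β) (h2s : 2 ≤ √(‖α‖ ^ t.1)) :
    √(‖α‖ ^ t.1) / ‖β‖ ^ t.2 ≤ 2 / √(‖α‖ ^ t.1) := by
  obtain ⟨-, h2, -, -⟩ := near_basic hα hβ ht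
  have hb : 0 < ‖β‖ ^ t.2 := by positivity
  have hs0 : 0 < √(‖α‖ ^ t.1) := by linarith
  have hs : √(‖α‖ ^ t.1) ^ 2 = ‖α‖ ^ t.1 := sq_sqrt (by positivity)
  rw [div_le_div_iff₀ hb hs0, ← sq, hs]
  have h3 := (abs_lt.1 h2).2
  nlinarith

/-- both numbers -/
theorem near_both (hα : 1 < ‖α‖) (hβ : 1 < ‖β‖) (hG : Good α β) :
    {t ∈ nearC α β | α ^ t.1 ≠ β ^ t.2}.Finite := by
  refine near_good hα hβ hG fun t ht h2s => ?_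
  obtain ⟨h1, -, -, -⟩ := near_basic hα hβ ht
  have hβ0 : β ^ t.2 ≠ 0 := pow_ne_zero _ (norm_ne_zero_iff.1 (by linarith))
  rw [div_sub_one hβ0, norm_div, norm_pow β]
  refine le_trans ?_ (half_le hα hβ ht h2s)
  gcongr

/-- the moduli -/
theorem near_mod (hα : 1 < ‖α‖) (hβ : 1 < ‖β‖) (hG : Good (‖α‖ : ℂ) (‖β‖ : ℂ)) :
    {t ∈ nearC α β | ‖α‖ ^ t.1 ≠ ‖β‖ ^ t.2}.Finite := by
  have h : {t ∈ nearC α β | (‖α‖ : ℂ) ^ t.1 ≠ (‖β‖ : ℂ) ^ t.2}.Finite := by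
    refine near_good hα hβ hG fun t ht h2s => ?_
    obtain ⟨-, h1, -, -⟩ := near_basic hα hβ ht
    have hβ0 : ‖β‖ ^ t.2 ≠ 0 := by positivity
    rw [← Complex.ofReal_pow, ← Complex.ofReal_pow, ← Complex.ofReal_div, ← Complex.ofReal_one,
      ← Complex.ofReal_sub, Complex.norm_real, norm_eq_abs, div_sub_one hβ0, abs_div,
      abs_of_pos (by positivity : 0 < ‖β‖ ^ t.2)]
    refine le_trans ?_ (half_le hα hβ ht h2s)
    gcongr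
  refine h.subset ?_
  rintro t ⟨h1, h2⟩
  exact ⟨h1, by exact_mod_cast h2⟩

/-- near misses with `m = 0` are finitely many -/
theorem near_zero (hα : 1 < ‖α‖) (hβ : 1 < ‖β‖) : {t ∈ nearC α β | t.1 = 0 ∨ t.2 = 0}.Finite := by
  have hlα : 0 < log ‖α‖ := log_pos hα
  refine (near_bdd hα hβ (2 * log 2 / log ‖α‖)).subset ?_
  rintro t ⟨ht, h0⟩
  refine ⟨ht, ?_⟩
  rcases h0 with h0 | h0
  · rw [h0, Nat.cast_zero]
    have : 0 < log 2 := log_pos (by norm_num)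
    positivity
  · have h1 := (abs_le.1 (near_log hα hβ ht)).2
    rw [h0, Nat.cast_zero, zero_mul, sub_zero] at h1
    rwa [le_div_iff₀ hlα]

/-- no root of unity -/
def Tors (z : ℂ) : Prop := ∃ k : ℕ, 1 ≤ k ∧ z ^ k = 1

theorem tors_of {z : ℂ} (hz : z ≠ 0) {k l : ℕ} (hkl : k ≠ l) (h : z ^ k = z ^ l) : Tors z := by
  rcases lt_or_gt_of_ne hkl with h1 | h1
  · refine ⟨l - k, by omega, ?_⟩
    have h2 : z ^ k * z ^ (l - k) = z ^ k * 1 := by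
      rw [← pow_add, mul_one, h]
      congr 1
      omega
    exact mul_left_cancel₀ (pow_ne_zero _ hz) h2
  · refine ⟨k - l, by omega, ?_⟩
    have h2 : z ^ l * z ^ (k - l) = z ^ l * 1 := by
      rw [← pow_add, mul_one, ← h]
      congr 1
      omega
    exact mul_left_cancel₀ (pow_ne_zero _ hz) h2

/-- **The phase criterion.** -/
theorem near_fin_of_phase (hα : 1 < ‖α‖) (hβ : 1 < ‖β‖) (hG : Good (α / (‖α‖ : ℂ)) (β / (‖β‖ : ℂ)))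
    (hT : ¬(Tors (α / (‖α‖ : ℂ)) ∧ Tors (β / (‖β‖ : ℂ)))) (hM : MulIndep α β) : (nearC α β).Finite := by
  have hlβ : 0 < log ‖β‖ := log_pos hβ
  have hlα : 0 < log ‖α‖ := log_pos hα
  set ζ : ℂ := α / (‖α‖ : ℂ) with hζ
  set ξ : ℂ := β / (‖β‖ : ℂ) with hξ
  have hζ1 : ‖ζ‖ = 1 := phase_norm hα
  have hξ1 : ‖ξ‖ = 1 := phase_norm hβ
  have hζ0 : ζ ≠ 0 := norm_ne_zero_iff.1 (by rw [hζ1]; norm_num)
  have hξ0 : ξ ≠ 0 := norm_ne_zero_iff.1 (by rw [hξ1]; norm_num)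
  have hα0 : (‖α‖ : ℂ) ≠ 0 := by exact_mod_cast (by linarith : ‖α‖ ≠ 0)
  have hβ0 : (‖β‖ : ℂ) ≠ 0 := by exact_mod_cast (by linarith : ‖β‖ ≠ 0)
  have eα : α = (‖α‖ : ℂ) * ζ := by rw [hζ]; field_simp
  have eβ : β = (‖β‖ : ℂ) * ξ := by rw [hξ]; field_simp
  have h1 := near_phase hα hβ hG
  have h2 := near_zero hα hβ
  set Z : Set (ℕ × ℕ) := {t ∈ nearC α β | ζ ^ t.1 = ξ ^ t.2 ∧ 1 ≤ t.1 ∧ 1 ≤ t.2} with hZ
  suffices hZf : Z.Finite by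
    refine ((h1.union h2).union hZf).subset ?_
    intro t ht
    by_cases h3 : ζ ^ t.1 = ξ ^ t.2
    · by_cases h4 : t.1 = 0 ∨ t.2 = 0
      · exact Or.inl (Or.inr ⟨ht, h4⟩)
      · right
        push Not at h4
        exact ⟨ht, h3, by omega, by omega⟩
    · exact Or.inl (Or.inl ⟨ht, h3⟩)
  by_cases hZe : Z = ∅
  · rw [hZe]
    exact Set.finite_empty
  obtain ⟨⟨p, q⟩, hp, hpq, hp1, hq1⟩ := Set.nonempty_iff_ne_empty.2 hZe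
  simp only at hpq hp1 hq1
  have hpq' : ‖α‖ ^ p ≠ ‖β‖ ^ q := by
    intro h3
    apply hM p q hp1 hq1
    rw [eα, eβ, mul_pow, mul_pow, hpq]
    congr 1
    exact_mod_cast h3
  set c : ℝ := p * log ‖α‖ - q * log ‖β‖ with hc
  have hc0 : c ≠ 0 := by
    intro h3
    apply hpq'
    have h4 : log (‖α‖ ^ p) = log (‖β‖ ^ q) := by
      rw [log_pow, log_pow]
      linarith
    exact log_injOn_pos (Set.mem_Ioi.2 (by positivity)) (Set.mem_Ioi.2 (by positivity)) h4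
  have hcpos : 0 < |c| := abs_pos.2 hc0
  have hp0 : (0 : ℝ) < p := by exact_mod_cast hp1
  refine (near_bdd hα hβ (2 * log 2 * p / |c|)).subset ?_
  rintro ⟨n, m⟩ ⟨ht, hnm, hn1, hm1⟩
  refine ⟨ht, ?_⟩
  simp only at hnm hn1 hm1 ⊢
  have hprop : n * q = p * m := by
    by_contra hne
    apply hT
    constructor
    · refine tors_of hζ0 hne ?_
      rw [pow_mul, hnm, ← pow_mul, mul_comm m q, pow_mul ξ q m, ← hpq, ← pow_mul]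
    · refine tors_of hξ0 hne ?_
      rw [mul_comm n q, pow_mul ξ q n, ← hpq, ← pow_mul, mul_comm p n, pow_mul ζ n p, hnm, ← pow_mul, mul_comm m p]
  have h3 := near_log hα hβ ht
  have h4 : (p : ℝ) * (n * log ‖α‖ - m * log ‖β‖) = n * c := by
    have h5 : (n : ℝ) * q = p * m := by exact_mod_cast hprop
    rw [hc]
    linear_combination (log ‖β‖) * h5
  have h5 : (n : ℝ) * |c| = p * |n * log ‖α‖ - m * log ‖β‖| := by
    rw [← abs_of_nonneg (Nat.cast_nonneg n : (0 : ℝ) ≤ n), ← abs_mul, ← h4, abs_mul,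
      abs_of_pos hp0, abs_of_nonneg (Nat.cast_nonneg n : (0 : ℝ) ≤ n)]
  rw [le_div_iff₀ hcpos, h5]
  have : (p : ℝ) * |n * log ‖α‖ - m * log ‖β‖| ≤ p * (2 * log 2) :=
    mul_le_mul_of_nonneg_left h3 hp0.le
  linarith

theorem near_fin_of_both (hα : 1 < ‖α‖) (hβ : 1 < ‖β‖) (hG : Good α β) (hM : MulIndep α β) :
    (nearC α β).Finite := by
  refine ((near_both hα hβ hG).union (near_zero hα hβ)).subset ?_
  intro t ht
  by_cases h4 : t.1 = 0 ∨ t.2 = 0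
  · exact Or.inr ⟨ht, h4⟩
  · push Not at h4
    exact Or.inl ⟨ht, hM _ _ (by omega) (by omega)⟩

theorem near_fin_of_mod (hα : 1 < ‖α‖) (hβ : 1 < ‖β‖) (hG : Good (‖α‖ : ℂ) (‖β‖ : ℂ))
    (hM : ∀ p q : ℕ, 1 ≤ p → 1 ≤ q → ‖α‖ ^ p ≠ ‖β‖ ^ q) : (nearC α β).Finite := by
  refine ((near_mod hα hβ hG).union (near_zero hα hβ)).subset ?_
  intro t ht
  by_cases h4 : t.1 = 0 ∨ t.2 = 0
  · exact Or.inr ⟨ht, h4⟩
  · push Not at h4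
    exact Or.inl ⟨ht, hM _ _ (by omega) (by omega)⟩

/-- dependent numbers -/
theorem infinite_of_dep (h : ¬MulIndep α β) {x : ℝ} (hx : 0 ≤ x) : (prs α β x).Infinite := by
  unfold MulIndep at h
  push Not at h
  obtain ⟨p, q, hp, hq, hpq⟩ := h
  refine Set.infinite_of_injective_forall_mem (f := fun k : ℕ => (p * k, q * k)) ?_ ?_
  · intro k l hkl
    simp only [Prod.mk.injEq] at hkl
    exact Nat.eq_of_mul_eq_mul_left (by omega) hkl.1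
  · intro k
    show ‖α ^ (p * k) - β ^ (q * k)‖ ≤ x
    rw [pow_mul, pow_mul, hpq, sub_self, norm_zero]
    exact hx

end

end Pool.Agent.D0H19.CB
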