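import Pool.Agent.D0H19.CB.Phase

/-!
# Project CB: the phases for which the law holds for all moduli
-/

set_option autoImplicit false

namespace Pool.Agent.D0H19.CB

open Real Filter Topology

/-- resonant phases -/
def Resonant (ζ ξ : ℂ) : Prop :=
  ∃ κ δ : ℝ, 0 < κ ∧ 0 < δ ∧
    {t : ℕ × ℕ | ‖ζ ^ t.1 - ξ ^ t.2‖ < exp (-(δ * t.1)) ∧ |κ * t.1 - t.2| < exp (-(δ * t.1))}.Infinite ∧
    ∀ p q : ℕ, 1 ≤ p → 1 ≤ q → κ * p = q → ζ ^ p ≠ ξ ^ q

lemma phase_le {α β : ℂ} (hα : 1 < ‖α‖) (hβ : 1 < ‖β‖) {t : ℕ × ℕ} (ht : t ∈ nearC α β) :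
    ‖(α / (‖α‖ : ℂ)) ^ t.1 - (β / (‖β‖ : ℂ)) ^ t.2‖ ≤ 2 / √(‖α‖ ^ t.1) := by
  obtain ⟨h1, h2, -, -⟩ := near_basic hα hβ ht
  set ζ : ℂ := α / (‖α‖ : ℂ) with hζ
  set ξ : ℂ := β / (‖β‖ : ℂ) with hξ
  have hα0 : (‖α‖ : ℂ) ≠ 0 := by exact_mod_cast (by linarith : ‖α‖ ≠ 0)
  have hβ0 : (‖β‖ : ℂ) ≠ 0 := by exact_mod_cast (by linarith : ‖β‖ ≠ 0)
  have hζ1 : ‖ζ‖ = 1 := phase_norm hα
  have hξ1 : ‖ξ‖ = 1 := phase_norm hβ
  have hs0 : 0 < √(‖α‖ ^ t.1) := by positivity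
  have hs : √(‖α‖ ^ t.1) ^ 2 = ‖α‖ ^ t.1 := sq_sqrt (by positivity)
  have eα : α = (‖α‖ : ℂ) * ζ := by rw [hζ]; field_simp
  have eβ : β = (‖β‖ : ℂ) * ξ := by rw [hξ]; field_simp
  have e2 : ((‖α‖ ^ t.1 : ℝ) : ℂ) * (ζ ^ t.1 - ξ ^ t.2) =
      (α ^ t.1 - β ^ t.2) - ((‖α‖ ^ t.1 - ‖β‖ ^ t.2 : ℝ) : ℂ) * ξ ^ t.2 := by
    conv_rhs => rw [eα, eβ]
    have n1 : ‖(‖α‖ : ℂ) * ζ‖ = ‖α‖ := by rw [← eα]
    have n2 : ‖(‖β‖ : ℂ) * ξ‖ = ‖β‖ := by rw [← eβ]
    rw [n1, n2, mul_pow, mul_pow]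
    push_cast
    ring
  have e3 : ‖α‖ ^ t.1 * ‖ζ ^ t.1 - ξ ^ t.2‖ < 2 * √(‖α‖ ^ t.1) := by
    have h3 := congrArg norm e2
    rw [norm_mul, Complex.norm_real, norm_of_nonneg (by positivity)] at h3
    rw [h3]
    refine (norm_sub_le _ _).trans_lt ?_
    rw [norm_mul, Complex.norm_real, norm_pow ξ, hξ1, one_pow, mul_one, norm_eq_abs]
    linarith
  rw [le_div_iff₀ hs0]
  have e4 : √(‖α‖ ^ t.1) * (√(‖α‖ ^ t.1) * ‖ζ ^ t.1 - ξ ^ t.2‖) < √(‖α‖ ^ t.1) * 2 := by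
    calc √(‖α‖ ^ t.1) * (√(‖α‖ ^ t.1) * ‖ζ ^ t.1 - ξ ^ t.2‖)
        = √(‖α‖ ^ t.1) ^ 2 * ‖ζ ^ t.1 - ξ ^ t.2‖ := by ring
      _ = ‖α‖ ^ t.1 * ‖ζ ^ t.1 - ξ ^ t.2‖ := by rw [hs]
      _ < _ := by rw [mul_comm (√(‖α‖ ^ t.1)) 2]; exact e3
  have e5 := lt_of_mul_lt_mul_left e4 hs0.le
  rw [mul_comm]
  exact e5.le

lemma log_le_two {v : ℝ} (hv : |v - 1| ≤ 1 / 2) : |log v| ≤ 2 * |v - 1| := by
  have h1 := abs_le.1 hv
  have hv0 : 0 < v := by linarith [h1.1]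
  have h2 : log v ≤ v - 1 := log_le_sub_one_of_pos hv0
  have h3 : -log v ≤ (1 - v) / v := by
    have := log_le_sub_one_of_pos (inv_pos.2 hv0)
    rw [log_inv] at this
    calc -log v ≤ v⁻¹ - 1 := this
      _ = (1 - v) / v := by field_simp
  have h4 : (1 - v) / v ≤ 2 * |v - 1| := by
    rw [div_le_iff₀ hv0]
    have h5 : 1 - v ≤ |v - 1| := by
      have := neg_abs_le (v - 1)
      linarith
    have h6 : |v - 1| ≤ 2 * |v - 1| * v := by
      have := abs_nonneg (v - 1)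
      nlinarith [h1.1]
    linarith
  rw [abs_le]
  constructor
  · linarith
  · linarith [le_abs_self (v - 1), abs_nonneg (v - 1)]

theorem res_of {α β : ℂ} (hα : 1 < ‖α‖) (hβ : 1 < ‖β‖) (hM : MulIndep α β) (hinf : ¬(nearC α β).Finite) :
    Resonant (α / (‖α‖ : ℂ)) (β / (‖β‖ : ℂ)) := by
  have hlβ : 0 < log ‖β‖ := log_pos hβ
  have hlα : 0 < log ‖α‖ := log_pos hα
  have hα0 : (‖α‖ : ℂ) ≠ 0 := by exact_mod_cast (by linarith : ‖α‖ ≠ 0)
  have hβ0 : (‖β‖ : ℂ) ≠ 0 := by exact_mod_cast (by linarith : ‖β‖ ≠ 0)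
  set δ : ℝ := log ‖α‖ / 4 with hδ
  have hδ0 : 0 < δ := by positivity
  refine ⟨log ‖α‖ / log ‖β‖, δ, by positivity, hδ0, ?_, ?_⟩
  · have h0 : (nearC α β \ {t ∈ nearC α β | (t.1 : ℝ) ≤ (log 2 + |log (2 / log ‖β‖)|) / δ}).Infinite :=
      Set.Infinite.sdiff hinf (near_bdd hα hβ _)
    refine h0.mono ?_
    rintro t ⟨ht, hn⟩
    have hn' : (log 2 + |log (2 / log ‖β‖)|) / δ < t.1 := by
      by_contra h
      exact hn ⟨ht, not_lt.1 h⟩
    rw [div_lt_iff₀ hδ0] at hn'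
    have hl2 : 0 < log 2 := log_pos (by norm_num)
    have habs := abs_nonneg (log (2 / log ‖β‖))
    have hpos : 0 < ‖α‖ ^ t.1 := by positivity
    have hposβ : 0 < ‖β‖ ^ t.2 := by positivity
    have hsq : √(‖α‖ ^ t.1) = exp (2 * (δ * t.1)) := by
      rw [sqrt_eq_rpow, rpow_def_of_pos hpos, log_pow, hδ]
      congr 1
      ring
    obtain ⟨-, h2, -, -⟩ := near_basic hα hβ ht
    have hs : √(‖α‖ ^ t.1) ^ 2 = ‖α‖ ^ t.1 := sq_sqrt (by positivity)
    have hs0 : 0 < √(‖α‖ ^ t.1) := by positivity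
    have hexp : exp (2 * (δ * t.1)) = exp (δ * t.1) * exp (δ * t.1) := by rw [← exp_add]; ring_nf
    have hE : 0 < exp (δ * t.1) := exp_pos _
    have hE2 : 2 < exp (δ * t.1) := by
      rw [← exp_log (by norm_num : (0 : ℝ) < 2)]
      apply exp_lt_exp.2
      linarith
    have hE3 : 2 / log ‖β‖ < exp (δ * t.1) := by
      rw [← exp_log (by positivity : 0 < 2 / log ‖β‖)]
      apply exp_lt_exp.2
      linarith [le_abs_self (log (2 / log ‖β‖))]
    have hs2 : 2 ≤ √(‖α‖ ^ t.1) := by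
      rw [hsq, hexp]
      nlinarith
    constructor
    · refine (phase_le hα hβ ht).trans_lt ?_
      rw [hsq, hexp, exp_neg, div_lt_iff₀ (by positivity)]
      rw [inv_mul_eq_div, mul_div_assoc, div_self hE.ne', mul_one]
      exact hE2
    · set v : ℝ := ‖β‖ ^ t.2 / ‖α‖ ^ t.1 with hv
      have hv1 : |v - 1| ≤ 1 / √(‖α‖ ^ t.1) := by
        rw [hv, div_sub_one hpos.ne', abs_div, abs_of_pos hpos, abs_sub_comm]
        conv_lhs => rw [← hs]
        rw [hs]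
        rw [div_le_div_iff₀ hpos hs0]
        conv_rhs => rw [one_mul, ← hs]
        nlinarith
      have hv2 : |v - 1| ≤ 1 / 2 := hv1.trans (one_div_le_one_div_of_le (by norm_num) hs2)
      have hlv := log_le_two hv2
      have e1 : log v = t.2 * log ‖β‖ - t.1 * log ‖α‖ := by
        rw [hv, log_div hposβ.ne' hpos.ne', log_pow, log_pow]
      have e2 : log ‖α‖ / log ‖β‖ * t.1 - t.2 = -(log v) / log ‖β‖ := by
        rw [e1]
        field_simp
        ring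
      rw [e2, abs_div, abs_neg, abs_of_pos hlβ]
      have h3 : |log v| ≤ 2 / √(‖α‖ ^ t.1) := by
        refine hlv.trans ?_
        calc 2 * |v - 1| ≤ 2 * (1 / √(‖α‖ ^ t.1)) := by gcongr
          _ = _ := by ring
      calc |log v| / log ‖β‖ ≤ 2 / √(‖α‖ ^ t.1) / log ‖β‖ := by gcongr
        _ = (2 / log ‖β‖) / (exp (δ * t.1) * exp (δ * t.1)) := by rw [hsq, hexp]; field_simp
        _ < exp (-(δ * t.1)) := by
          rw [exp_neg, div_lt_iff₀ (by positivity), inv_mul_eq_div, mul_div_assoc, div_self hE.ne', mul_one]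
          exact hE3
  · intro p q hp hq hpq h
    apply hM p q hp hq
    have h1 : (p : ℝ) * log ‖α‖ = q * log ‖β‖ := by
      rw [← hpq]
      field_simp
    have h2 : ‖α‖ ^ p = ‖β‖ ^ q := by
      have h4 : log (‖α‖ ^ p) = log (‖β‖ ^ q) := by
        rw [log_pow, log_pow]
        exact h1
      exact log_injOn_pos (Set.mem_Ioi.2 (by positivity)) (Set.mem_Ioi.2 (by positivity)) h4
    rw [div_pow, div_pow, div_eq_div_iff (pow_ne_zero _ hα0) (pow_ne_zero _ hβ0)] at h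
    have h3 : ((‖α‖ : ℂ)) ^ p = (‖β‖ : ℂ) ^ q := by exact_mod_cast h2
    rw [← h3] at h
    exact mul_right_cancel₀ (pow_ne_zero _ hα0) h

theorem inf_of_res {ζ ξ : ℂ} (hζ : ‖ζ‖ = 1) (hξ : ‖ξ‖ = 1) (h : Resonant ζ ξ) :
    ∃ a b : ℝ, 1 < a ∧ 1 < b ∧ MulIndep (a * ζ) (b * ξ) ∧ ∀ x : ℝ, 0 < x → (prs (a * ζ) (b * ξ) x).Infinite := by
  obtain ⟨κ, δ, hκ, hδ, hinf, hne⟩ := h
  set c : ℝ := min 1 (δ / (2 * κ)) with hc
  have hc0 : 0 < c := lt_min one_pos (by positivity)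
  have hc1 : c ≤ 1 := min_le_left _ _
  have hcκ : κ * c ≤ δ / 2 := by
    calc κ * c ≤ κ * (δ / (2 * κ)) := by gcongr; exact min_le_right _ _
      _ = δ / 2 := by field_simp
  have ha : 1 < exp (κ * c) := by
    rw [one_lt_exp_iff]
    positivity
  have hb : 1 < exp c := by
    rw [one_lt_exp_iff]
    exact hc0
  refine ⟨exp (κ * c), exp c, ha, hb, ?_, ?_⟩
  · intro p q hp hq hpq
    have h1 : exp (κ * c) ^ p = exp c ^ q := by
      have := congrArg norm hpq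
      rwa [norm_pow, norm_pow, norm_mul, norm_mul, hζ, hξ, Complex.norm_real, Complex.norm_real,
        norm_of_nonneg (exp_pos _).le, norm_of_nonneg (exp_pos _).le, mul_one, mul_one] at this
    refine hne p q hp hq ?_ ?_
    · rw [← exp_nat_mul, ← exp_nat_mul, exp_eq_exp] at h1
      have h2 : (κ * p - q) * c = 0 := by linarith
      have := (mul_eq_zero.1 h2).resolve_right hc0.ne'
      linarith
    · rw [mul_pow, mul_pow, ← Complex.ofReal_pow, ← Complex.ofReal_pow, h1] at hpq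
      exact mul_left_cancel₀ (by exact_mod_cast (pow_pos (exp_pos c) q).ne') hpq
  · intro x hx
    -- only finitely many with `n ≤ N`
    set R : Set (ℕ × ℕ) :=
      {t : ℕ × ℕ | ‖ζ ^ t.1 - ξ ^ t.2‖ < exp (-(δ * t.1)) ∧ |κ * t.1 - t.2| < exp (-(δ * t.1))} with hR
    have hfin : ∀ N : ℝ, {t ∈ R | (t.1 : ℝ) ≤ N}.Finite := by
      intro N
      refine ((Set.finite_le_nat ⌈N⌉₊).prod (Set.finite_le_nat ⌈κ * N + 1⌉₊)).subset ?_
      rintro t ⟨ht, hN⟩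
      have h1 := (abs_lt.1 ht.2).1
      have h2 : exp (-(δ * t.1)) ≤ 1 := by
        rw [exp_le_one_iff]
        have : (0 : ℝ) ≤ t.1 := Nat.cast_nonneg _
        have : 0 ≤ δ * t.1 := by positivity
        linarith
      have h3 : (t.2 : ℝ) ≤ κ * N + 1 := by
        have : κ * t.1 ≤ κ * N := by gcongr
        linarith
      exact ⟨by exact_mod_cast hN.trans (Nat.le_ceil N), by exact_mod_cast h3.trans (Nat.le_ceil _)⟩
    have h0 := Set.Infinite.sdiff hinf (hfin (2 * |log (x / 3)| / δ))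
    refine h0.mono ?_
    rintro t ⟨ht, hn⟩
    have hn' : 2 * |log (x / 3)| / δ < t.1 := by
      by_contra h
      exact hn ⟨ht, not_lt.1 h⟩
    rw [div_lt_iff₀ hδ] at hn'
    show ‖(exp (κ * c) * ζ : ℂ) ^ t.1 - (exp c * ξ : ℂ) ^ t.2‖ ≤ x
    obtain ⟨h1, h2⟩ := ht
    have ht0 : (0 : ℝ) ≤ t.1 := Nat.cast_nonneg _
    have hE1 : exp (-(δ * t.1)) ≤ 1 := by
      rw [exp_le_one_iff]
      have : 0 ≤ δ * t.1 := by positivity
      linarith
    have hE0 : 0 < exp (-(δ * t.1)) := exp_pos _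
    have e1 : ((exp (κ * c) : ℝ) * ζ : ℂ) ^ t.1 - ((exp c : ℝ) * ξ : ℂ) ^ t.2 =
        ((exp (κ * c) ^ t.1 : ℝ) : ℂ) * (ζ ^ t.1 - ξ ^ t.2) +
          ((exp (κ * c) ^ t.1 - exp c ^ t.2 : ℝ) : ℂ) * ξ ^ t.2 := by
      rw [mul_pow, mul_pow]
      push_cast
      ring
    rw [e1]
    refine (norm_add_le _ _).trans ?_
    rw [norm_mul, norm_mul, Complex.norm_real, Complex.norm_real, norm_of_nonneg (by positivity), norm_pow ξ, hξ,
      one_pow, mul_one, norm_eq_abs]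
    have hA : 0 < exp (κ * c) ^ t.1 := by positivity
    have e2 : exp c ^ t.2 = exp (κ * c) ^ t.1 * exp (c * (t.2 - κ * t.1)) := by
      rw [← exp_nat_mul, ← exp_nat_mul, ← exp_add]
      congr 1
      ring
    have hu : |c * (t.2 - κ * t.1)| ≤ exp (-(δ * t.1)) := by
      rw [abs_mul, abs_of_pos hc0, abs_sub_comm]
      have := abs_nonneg (κ * t.1 - t.2)
      nlinarith
    have h3 : |exp (κ * c) ^ t.1 - exp c ^ t.2| ≤ exp (κ * c) ^ t.1 * (2 * exp (-(δ * t.1))) := by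
      rw [e2, show exp (κ * c) ^ t.1 - exp (κ * c) ^ t.1 * exp (c * (t.2 - κ * t.1)) =
        exp (κ * c) ^ t.1 * (-(exp (c * (t.2 - κ * t.1)) - 1)) by ring, abs_mul, abs_neg, abs_of_pos hA]
      have := abs_exp_sub_one_le (hu.trans hE1)
      gcongr
      linarith
    have h4 : exp (κ * c) ^ t.1 * ‖ζ ^ t.1 - ξ ^ t.2‖ ≤ exp (κ * c) ^ t.1 * exp (-(δ * t.1)) := by
      gcongr
    have h5 : exp (κ * c) ^ t.1 * exp (-(δ * t.1)) ≤ x / 3 := by
      rw [← exp_nat_mul, ← exp_add, ← exp_log (by positivity : 0 < x / 3)]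
      apply exp_le_exp.2
      have h6 : t.1 * (κ * c) ≤ t.1 * (δ / 2) := by gcongr
      have h7 := neg_abs_le (log (x / 3))
      linarith
    linarith

/-- **Characterisation of the phases.** -/
theorem char {ζ ξ : ℂ} (hζ : ‖ζ‖ = 1) (hξ : ‖ξ‖ = 1) (h : ¬Resonant ζ ξ) {a b : ℝ} (ha : 1 < a) (hb : 1 < b)
    (hM : MulIndep (a * ζ) (b * ξ)) : Law (a * ζ) (b * ξ) := by
  have ha' : ‖(a : ℂ) * ζ‖ = a := by
    rw [norm_mul, hζ, Complex.norm_real, norm_of_nonneg (by linarith), mul_one]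
  have hb' : ‖(b : ℂ) * ξ‖ = b := by
    rw [norm_mul, hξ, Complex.norm_real, norm_of_nonneg (by linarith), mul_one]
  have hα : 1 < ‖(a : ℂ) * ζ‖ := by rw [ha']; exact ha
  have hβ : 1 < ‖(b : ℂ) * ξ‖ := by rw [hb']; exact hb
  apply law_of hα hβ
  by_contra hcon
  apply h
  have h1 := res_of hα hβ hM hcon
  rw [ha', hb', mul_div_cancel_left₀ _ (by exact_mod_cast (by linarith : a ≠ 0)),
    mul_div_cancel_left₀ _ (by exact_mod_cast (by linarith : b ≠ 0))] at h1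
  exact h1

/-- the case `ξ = 1` -/
theorem res_one (ζ : ℂ) :
    Resonant ζ 1 ↔ ∃ δ : ℝ, 0 < δ ∧ {n : ℕ | ‖ζ ^ n - 1‖ < exp (-(δ * n))}.Infinite := by
  constructor
  · rintro ⟨κ, δ, hκ, hδ, hinf, -⟩
    refine ⟨δ, hδ, fun hfin => hinf ?_⟩
    obtain ⟨B, hB⟩ := hfin.bddAbove
    refine ((Set.finite_le_nat B).prod (Set.finite_le_nat ⌈κ * B + 1⌉₊)).subset ?_
    rintro t ⟨h1, h2⟩
    rw [one_pow] at h1
    have h3 : t.1 ≤ B := hB h1
    have h4 := (abs_lt.1 h2).1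
    have h5 : exp (-(δ * t.1)) ≤ 1 := by
      rw [exp_le_one_iff]
      have : (0 : ℝ) ≤ t.1 := Nat.cast_nonneg _
      have : 0 ≤ δ * t.1 := by positivity
      linarith
    have h6 : (t.2 : ℝ) ≤ κ * B + 1 := by
      have h7 : (t.1 : ℝ) ≤ B := by exact_mod_cast h3
      have : κ * t.1 ≤ κ * B := by gcongr
      linarith
    exact ⟨h3, by exact_mod_cast h6.trans (Nat.le_ceil _)⟩
  · rintro ⟨δ, hδ, hinf⟩
    set 𝒩 : Set ℕ := {n : ℕ | ‖ζ ^ n - 1‖ < exp (-(δ * n))} with h𝒩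
    set V : ℕ → Set ℝ := fun N => {κ : ℝ | ∃ n ∈ 𝒩, N ≤ n ∧ ∃ m : ℤ, |κ * n - m| < exp (-(δ * n))} with hV
    have hopen : ∀ N, IsOpen (V N) := by
      intro N
      have : V N = ⋃ n : ℕ, ⋃ _ : n ∈ 𝒩, ⋃ _ : N ≤ n, ⋃ m : ℤ, {κ : ℝ | |κ * n - m| < exp (-(δ * n))} := by
        ext κ
        simp only [hV, Set.mem_ofPred_eq, Set.mem_iUnion, exists_prop]
      rw [this]
      refine isOpen_iUnion fun n => isOpen_iUnion fun _ => isOpen_iUnion fun _ => isOpen_iUnion fun m => ?_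
      exact isOpen_lt (by fun_prop) continuous_const
    have hdense : ∀ N, Dense (V N) := by
      intro N κ
      rw [Metric.mem_closure_iff]
      intro ε hε
      obtain ⟨k, hk⟩ := exists_nat_gt (1 / ε)
      obtain ⟨n, hn, hn'⟩ := hinf.exists_gt (max N k)
      have hn1 : N < n := lt_of_le_of_lt (le_max_left _ _) hn'
      have hn2 : k < n := lt_of_le_of_lt (le_max_right _ _) hn'
      have hn0 : (0 : ℝ) < n := by exact_mod_cast (by omega : 0 < n)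
      refine ⟨(round (κ * n) : ℝ) / n, ⟨n, hn, hn1.le, round (κ * n), ?_⟩, ?_⟩
      · rw [div_mul_cancel₀ _ hn0.ne', sub_self, abs_zero]
        exact exp_pos _
      · rw [dist_eq]
        have h1 : κ - (round (κ * n) : ℝ) / n = (κ * n - round (κ * n)) / n := by field_simp
        rw [h1, abs_div, abs_of_pos hn0, div_lt_iff₀ hn0]
        have h2 := abs_sub_round (κ * n)
        have h3 : (k : ℝ) < n := by exact_mod_cast hn2
        rw [div_lt_iff₀ hε] at hk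
        nlinarith
    have hres : ∀ᶠ κ in residual ℝ, ∀ N, κ ∈ V N :=
      eventually_countable_forall.2 fun N => residual_of_dense_open (hopen N) (hdense N)
    have hd : Dense {κ : ℝ | (∀ N, κ ∈ V N) ∧ Irrational κ} :=
      dense_of_mem_residual (hres.and eventually_residual_irrational)
    obtain ⟨κ, hκ, hκV, hirr⟩ := hd.inter_open_nonempty (Set.Ioi 0) isOpen_Ioi ⟨1, Set.mem_Ioi.2 one_pos⟩
    have hκ0 : 0 < κ := hκ
    refine ⟨κ, δ, hκ0, hδ, ?_, ?_⟩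
    · intro hfin
      obtain ⟨B, hB⟩ := (hfin.image Prod.fst).bddAbove
      obtain ⟨n, hn, hn1, m, hm⟩ := hκV (B + 1)
      have hm0 : 0 ≤ m := by
        have h1 := (abs_lt.1 hm).2
        have h2 : exp (-(δ * n)) ≤ 1 := by
          rw [exp_le_one_iff]
          have : (0 : ℝ) ≤ n := Nat.cast_nonneg _
          have : 0 ≤ δ * n := by positivity
          linarith
        have h3 : (0 : ℝ) < κ * n := by
          have : (0 : ℝ) < n := by exact_mod_cast (by omega : 0 < n)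
          positivity
        have h4 : (-1 : ℝ) < m := by linarith
        have h5 : (-1 : ℤ) < m := by exact_mod_cast h4
        omega
      have h6 : n ≤ B := by
        apply hB
        refine ⟨(n, m.toNat), ⟨?_, ?_⟩, rfl⟩
        · rw [one_pow]
          exact hn
        · have h7 : ((m.toNat : ℕ) : ℝ) = m := by
            have : ((m.toNat : ℕ) : ℤ) = m := Int.toNat_of_nonneg hm0
            exact_mod_cast this
          simp only [h7]
          exact hm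
      omega
    · intro p q hp _ hpq
      exfalso
      have hp0 : (p : ℝ) ≠ 0 := by exact_mod_cast (by omega : p ≠ 0)
      apply hirr
      refine ⟨(q : ℚ) / p, ?_⟩
      push_cast
      rw [div_eq_iff hp0, hpq]

end Pool.Agent.D0H19.CB
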