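import Pool.Agent.D0H19.CB.Metric
import Pool.Agent.D0H19.CB.Reson
import Pool.Agent.D0H19.CB.Angle

/-!
# Project CB: resonant phases form a set of dimension zero; roots of unity are resonant
-/

set_option autoImplicit false

namespace Pool.Agent.D0H19.CB

open Real Filter Topology

/-- numbers `κ` with very good rational approximations -/
lemma exists_kappa (D : ℝ) : ∃ κ : ℝ, 0 < κ ∧ Irrational κ ∧
    {t : ℕ × ℕ | 1 ≤ t.1 ∧ |κ * t.1 - t.2| < exp (-(D * t.1))}.Infinite := by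
  set V : ℕ → Set ℝ := fun N => {κ : ℝ | ∃ n : ℕ, N ≤ n ∧ ∃ m : ℤ, |κ * n - m| < exp (-((|D| + 1) * n))} with hV
  have hopen : ∀ N, IsOpen (V N) := by
    intro N
    have : V N = ⋃ n : ℕ, ⋃ _ : N ≤ n, ⋃ m : ℤ, {κ : ℝ | |κ * n - m| < exp (-((|D| + 1) * n))} := by
      ext κ
      simp only [hV, Set.mem_ofPred_eq, Set.mem_iUnion, exists_prop]
    rw [this]
    refine isOpen_iUnion fun n => isOpen_iUnion fun _ => isOpen_iUnion fun m => ?_
    exact isOpen_lt (by fun_prop) continuous_const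
  have hdense : ∀ N, Dense (V N) := by
    intro N κ
    rw [Metric.mem_closure_iff]
    intro ε hε
    obtain ⟨k, hk⟩ := exists_nat_gt (1 / ε)
    obtain ⟨n, hn'⟩ : ∃ n : ℕ, max N k < n := ⟨max N k + 1, by omega⟩
    have hn1 : N < n := lt_of_le_of_lt (le_max_left _ _) hn'
    have hn2 : k < n := lt_of_le_of_lt (le_max_right _ _) hn'
    have hn0 : (0 : ℝ) < n := by exact_mod_cast (by omega : 0 < n)
    refine ⟨(round (κ * n) : ℝ) / n, ⟨n, hn1.le, round (κ * n), ?_⟩, ?_⟩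
    · rw [div_mul_cancel₀ _ hn0.ne', sub_self, abs_zero]
      exact exp_pos _
    · rw [dist_eq]
      have h1 : κ - (round (κ * n) : ℝ) / n = (κ * n - round (κ * n)) / n := by field_simp
      rw [h1, abs_div, abs_of_pos hn0, div_lt_iff₀ hn0]
      have h2 := abs_sub_round (κ * n)
      have h3 : (k : ℝ) < n := by exact_mod_cast hn2
      rw [div_lt_iff₀ hε] at hk
      nlinarith
  have hres : ∀ᶠ κ in residual ℝ, ∀ N, κ ∈ V N :=
    eventually_countable_forall.2 fun N => residual_of_dense_open (hopen N) (hdense N)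
  have hd : Dense {κ : ℝ | (∀ N, κ ∈ V N) ∧ Irrational κ} :=
    dense_of_mem_residual (hres.and eventually_residual_irrational)
  obtain ⟨κ, hκ, hκV, hirr⟩ := hd.inter_open_nonempty (Set.Ioi 0) isOpen_Ioi ⟨1, Set.mem_Ioi.2 one_pos⟩
  have hκ0 : 0 < κ := hκ
  refine ⟨κ, hκ0, hirr, fun hfin => ?_⟩
  obtain ⟨B, hB⟩ := (hfin.image Prod.fst).bddAbove
  obtain ⟨n, hn1, m, hm⟩ := hκV (B + 1)
  have hn0 : (0 : ℝ) < n := by exact_mod_cast (by omega : 0 < n)
  have hm0 : 0 ≤ m := by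
    have h1 := (abs_lt.1 hm).2
    have h2 : exp (-((|D| + 1) * n)) ≤ 1 := by
      rw [exp_le_one_iff]
      have : 0 ≤ (|D| + 1) * n := by positivity
      linarith
    have h3 : (0 : ℝ) < κ * n := by positivity
    have h4 : (-1 : ℝ) < m := by linarith
    have h5 : (-1 : ℤ) < m := by exact_mod_cast h4
    omega
  have h6 : n ≤ B := by
    apply hB
    refine ⟨(n, m.toNat), ⟨by simp only; omega, ?_⟩, rfl⟩
    have h7 : ((m.toNat : ℕ) : ℝ) = m := by
      have : ((m.toNat : ℕ) : ℤ) = m := Int.toNat_of_nonneg hm0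
      exact_mod_cast this
    simp only [h7]
    refine hm.trans_le (exp_le_exp.2 ?_)
    have := le_abs_self D
    nlinarith
  omega

/-- two roots of unity are resonant -/
theorem res_tors {ζ ξ : ℂ} (hζ : Tors ζ) (hξ : Tors ξ) : Resonant ζ ξ := by
  obtain ⟨k, hk, h1⟩ := hζ
  obtain ⟨l, hl, h2⟩ := hξ
  obtain ⟨κ, hκ, hirr, hinf⟩ := exists_kappa (2 * (k * l : ℕ))
  have hkl : 1 ≤ k * l := Nat.one_le_iff_ne_zero.2 (Nat.mul_ne_zero (by omega) (by omega))
  have hkl0 : (1 : ℝ) ≤ ((k * l : ℕ) : ℝ) := by exact_mod_cast hkl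
  refine ⟨κ, 1, hκ, one_pos, ?_, ?_⟩
  · have hinj : Set.InjOn (fun t : ℕ × ℕ => ((k * l) * t.1, (k * l) * t.2))
        {t : ℕ × ℕ | 1 ≤ t.1 ∧ |κ * t.1 - t.2| < exp (-(2 * (k * l : ℕ) * t.1))} := by
      intro s _ t _ h
      simp only [Prod.mk.injEq] at h
      exact Prod.ext (Nat.eq_of_mul_eq_mul_left (by omega) h.1) (Nat.eq_of_mul_eq_mul_left (by omega) h.2)
    refine (hinf.image hinj).mono ?_
    rintro _ ⟨t, ⟨ht1, ht⟩, rfl⟩
    have e1 : ζ ^ ((k * l) * t.1) = 1 := by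
      rw [mul_assoc, pow_mul, h1, one_pow]
    have e2 : ξ ^ ((k * l) * t.2) = 1 := by
      rw [mul_comm k l, mul_assoc, pow_mul, h2, one_pow]
    constructor
    · simp only [e1, e2, sub_self, norm_zero]
      exact exp_pos _
    · simp only [Nat.cast_mul] at *
      set u : ℝ := (k : ℝ) * l with hu
      have e3 : κ * (u * t.1) - u * t.2 = u * (κ * t.1 - t.2) := by ring
      rw [e3, abs_mul, abs_of_pos (by linarith : 0 < u), one_mul]
      have ht1' : (1 : ℝ) ≤ t.1 := by exact_mod_cast ht1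
      have h3 : u ≤ exp (u * t.1) := by
        have := add_one_le_exp (u * t.1)
        nlinarith
      calc u * |κ * t.1 - t.2| < u * exp (-(2 * u * t.1)) := by
            apply mul_lt_mul_of_pos_left ht (by linarith)
        _ ≤ exp (u * t.1) * exp (-(2 * u * t.1)) := by gcongr
        _ = exp (-(u * t.1)) := by rw [← exp_add]; ring_nf
  · intro p q hp _ hpq
    exfalso
    have hp0 : (p : ℝ) ≠ 0 := by exact_mod_cast (by omega : p ≠ 0)
    apply hirr
    refine ⟨(q : ℚ) / p, ?_⟩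
    push_cast
    rw [div_eq_iff hp0, hpq]

/-- good approximations exclude resonance -/
theorem not_res_of_good {ζ ξ : ℂ} (hζ : ‖ζ‖ = 1) (hξ : ‖ξ‖ = 1) (hG : Good ζ ξ) (hT : ¬(Tors ζ ∧ Tors ξ)) :
    ¬Resonant ζ ξ := by
  intro h
  obtain ⟨a, b, ha, hb, hM, hinf⟩ := inf_of_res hζ hξ h
  have ha' : ‖(a : ℂ) * ζ‖ = a := by
    rw [norm_mul, hζ, Complex.norm_real, norm_of_nonneg (by linarith), mul_one]
  have hb' : ‖(b : ℂ) * ξ‖ = b := by
    rw [norm_mul, hξ, Complex.norm_real, norm_of_nonneg (by linarith), mul_one]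
  have e1 : ((a : ℂ) * ζ) / (‖(a : ℂ) * ζ‖ : ℂ) = ζ := by
    rw [ha', mul_div_cancel_left₀ _ (by exact_mod_cast (by linarith : a ≠ 0))]
  have e2 : ((b : ℂ) * ξ) / (‖(b : ℂ) * ξ‖ : ℂ) = ξ := by
    rw [hb', mul_div_cancel_left₀ _ (by exact_mod_cast (by linarith : b ≠ 0))]
  have hα : 1 < ‖(a : ℂ) * ζ‖ := by rw [ha']; exact ha
  have hβ : 1 < ‖(b : ℂ) * ξ‖ := by rw [hb']; exact hb
  have h1 := near_fin_of_phase hα hβ (by rw [e1, e2]; exact hG) (by rw [e1, e2]; exact hT) hM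
  exact hinf 1 one_pos ((law_of hα hβ h1).1 1)

/-- the points -/
noncomputable def yr (ψ : ℝ) (K : ℕ) (p : ℕ × ℕ × ℕ) : ℝ :=
  (p.2.1 * ψ + 2 * π * ((p.2.2 : ℝ) - K * (p.1 + 1))) / p.1

theorem dim_res {ξ : ℂ} (hξ : ‖ξ‖ = 1) : dimH {φ : ℝ | Resonant (Complex.exp (φ * Complex.I)) ξ} = 0 := by
  set ψ : ℝ := Complex.arg ξ with hψ
  have hξe : ξ = Complex.exp (ψ * Complex.I) := by
    have := Complex.norm_mul_exp_arg_mul_I ξ
    rw [hξ, Complex.ofReal_one, one_mul] at this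
    exact this.symm
  have hψπ : |ψ| ≤ π := Complex.abs_arg_le_pi ξ
  have h : ∀ k : ℕ, dimH {φ : ℝ | |φ| ≤ k + 1 ∧
      {t : ℕ × ℕ | ‖Complex.exp (φ * Complex.I) ^ t.1 - ξ ^ t.2‖ < exp (-(1 / ((k : ℝ) + 1) * t.1)) ∧
        t.2 ≤ (k + 1) * (t.1 + 1)}.Infinite} = 0 := by
    intro k
    have hk0 : (0 : ℝ) ≤ k := Nat.cast_nonneg k
    set δ : ℝ := 1 / ((k : ℝ) + 1) with hδ
    have hδ0 : 0 < δ := by positivity
    have hq : 1 < exp δ := by rw [one_lt_exp_iff]; exact hδ0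
    set K0 : ℕ := 2 * (k + 1) + 1 with hK0
    set K : ℕ := 2 * K0 with hK
    have hd := Pool.Agent.R425.MK.dimH_balls (X := ℝ) (fun i : Ix K => yr ψ K0 i.1)
      (fun i : Ix K => exp δ ^ i.1.1) (fun i => one_le_pow₀ hq.le) (le_refl (0 : ℝ)) one_pos
      (by norm_num : (0 : ℝ) < 2) (ix_count hq K)
    rw [zero_div, ENNReal.ofReal_zero] at hd
    refine le_antisymm ((dimH_mono ?_).trans hd) bot_le
    rintro φ ⟨hφ, hinf⟩
    simp only [Set.mem_ofPred_eq]
    intro hfin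
    apply hinf
    have hsmall : {t : ℕ × ℕ | t.1 = 0 ∧ t.2 ≤ (k + 1) * (t.1 + 1)}.Finite := by
      refine ((Set.finite_le_nat 0).prod (Set.finite_le_nat (k + 1))).subset ?_
      rintro t ⟨h1, h2⟩
      rw [h1] at h2
      exact ⟨h1.le, by simpa using h2⟩
    refine (hsmall.union (hfin.image fun i : Ix K => (i.1.1, i.1.2.1))).subset ?_
    rintro ⟨n, m⟩ ⟨ht1, ht2⟩
    by_cases hn : n = 0
    · exact Or.inl ⟨hn, ht2⟩
    · right
      simp only at ht1 ht2
      have hn0 : (0 : ℝ) < n := by exact_mod_cast Nat.pos_of_ne_zero hn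
      have hn1 : (1 : ℝ) ≤ n := by exact_mod_cast Nat.one_le_iff_ne_zero.2 hn
      have hm0 : (0 : ℝ) ≤ m := Nat.cast_nonneg m
      have hmb : (m : ℝ) ≤ (k + 1) * (n + 1) := by exact_mod_cast ht2
      set θ : ℝ := n * φ - m * ψ with hθ
      set j : ℤ := round (θ / (2 * π)) with hj
      set θ' : ℝ := θ - 2 * π * j with hθ'
      have hπ := pi_pos
      have e0 : ‖Complex.exp (φ * Complex.I) ^ n - ξ ^ m‖ = ‖Complex.exp ((θ' : ℂ) * Complex.I) - 1‖ := by
        have e1 : Complex.exp (φ * Complex.I) ^ n - ξ ^ m =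
            (Complex.exp ((θ' : ℂ) * Complex.I) - 1) * Complex.exp ((m * ψ : ℝ) * Complex.I) := by
          rw [hξe, ← Complex.exp_nat_mul, ← Complex.exp_nat_mul, sub_mul, one_mul, ← Complex.exp_add]
          have e2 : Complex.exp ((n : ℂ) * (φ * Complex.I)) =
              Complex.exp ((θ' : ℂ) * Complex.I + ((m * ψ : ℝ) : ℂ) * Complex.I) := by
            rw [Complex.exp_eq_exp_iff_exists_int]
            refine ⟨j, ?_⟩
            rw [hθ', hθ]
            push_cast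
            ring
          rw [e2]
          congr 2
          push_cast
          ring
        rw [e1, norm_mul, Complex.norm_exp_ofReal_mul_I, mul_one]
      have h1 : |θ / (2 * π) - j| ≤ 1 / 2 := abs_sub_round _
      have h2 : |θ'| ≤ π := by
        have e3 : θ' = (2 * π) * (θ / (2 * π) - j) := by
          rw [hθ']
          field_simp
        rw [e3, abs_mul, abs_of_pos (by positivity : 0 < 2 * π)]
        nlinarith
      have h3 := exp_sub_one_ge h2
      rw [e0] at ht1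
      have h4 : |θ'| ≤ 2 * exp (-(δ * n)) := by
        have h5 : 2 / π * |θ'| < exp (-(δ * n)) := h3.trans_lt ht1
        have h6 : |θ'| = π / 2 * (2 / π * |θ'|) := by field_simp
        rw [h6]
        have := pi_lt_four
        have h7 : 0 ≤ 2 / π * |θ'| := by positivity
        nlinarith
      -- the index
      have hjb : |(j : ℝ)| ≤ K0 * (n + 1) := by
        have h6 : |(j : ℝ)| ≤ |θ / (2 * π)| + |θ / (2 * π) - j| := by
          have := abs_sub_abs_le_abs_sub (j : ℝ) (θ / (2 * π))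
          rw [abs_sub_comm] at this
          linarith
        have h7 : |θ| ≤ n * (k + 1) + (k + 1) * (n + 1) * π := by
          rw [hθ]
          refine (abs_sub _ _).trans ?_
          rw [abs_mul, abs_mul, abs_of_pos hn0, abs_of_nonneg hm0]
          gcongr
        have h8 : |θ / (2 * π)| ≤ n * (k + 1) + (k + 1) * (n + 1) := by
          rw [abs_div, abs_of_pos (by positivity : 0 < 2 * π), div_le_iff₀ (by positivity)]
          have h9 : 0 ≤ (n : ℝ) * (k + 1) := by positivity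
          have h10 : 0 ≤ ((k : ℝ) + 1) * (n + 1) := by positivity
          have := pi_gt_three
          nlinarith
        rw [hK0]
        push_cast
        nlinarith
      have hjb' := abs_le.1 hjb
      have hj1 : 0 ≤ j + K0 * (n + 1) := by
        have : (0 : ℝ) ≤ (j : ℝ) + K0 * (n + 1) := by linarith [hjb'.1]
        exact_mod_cast this
      have hj2 : j + K0 * (n + 1) ≤ (K * (n + 1) : ℕ) := by
        have : (j : ℝ) + K0 * (n + 1) ≤ K * (n + 1) := by
          rw [hK]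
          push_cast
          linarith [hjb'.2]
        exact_mod_cast this
      set j' : ℕ := (j + K0 * (n + 1)).toNat with hj'
      have hj'e : ((j' : ℕ) : ℤ) = j + K0 * (n + 1) := Int.toNat_of_nonneg hj1
      have hj'r : ((j' : ℕ) : ℝ) = j + K0 * (n + 1) := by exact_mod_cast hj'e
      have hj'b : j' ≤ K * (n + 1) := by
        have : ((j' : ℕ) : ℤ) ≤ (K * (n + 1) : ℕ) := by rw [hj'e]; exact hj2
        exact_mod_cast this
      have hm' : m ≤ K * (n + 1) := ht2.trans (Nat.mul_le_mul_right _ (by omega))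
      refine ⟨⟨(n, m, j'), hm', hj'b⟩, ?_, rfl⟩
      simp only [Set.mem_ofPred_eq]
      have hq0 : 0 < exp δ ^ n := by positivity
      rw [rpow_neg hq0.le, rpow_one, dist_eq, yr]
      simp only
      rw [hj'r]
      have e4 : ((m : ℝ) * ψ + 2 * π * ((j : ℝ) + K0 * (n + 1) - K0 * (n + 1))) / n - φ = -θ' / n := by
        rw [hθ', hθ]
        field_simp
        ring
      rw [e4, abs_div, abs_neg, abs_of_pos hn0]
      have e5 : exp (-(δ * n)) = (exp δ ^ n)⁻¹ := by
        rw [← exp_nat_mul, exp_neg, mul_comm]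
      rw [← e5]
      exact (div_le_self (abs_nonneg _) hn1).trans h4
  have hsub : {φ : ℝ | Resonant (Complex.exp (φ * Complex.I)) ξ} ⊆ ⋃ k : ℕ, {φ : ℝ | |φ| ≤ k + 1 ∧
      {t : ℕ × ℕ | ‖Complex.exp (φ * Complex.I) ^ t.1 - ξ ^ t.2‖ < exp (-(1 / ((k : ℝ) + 1) * t.1)) ∧
        t.2 ≤ (k + 1) * (t.1 + 1)}.Infinite} := by
    rintro φ ⟨κ, δ, hκ, hδ, hinf, -⟩
    obtain ⟨k, hk⟩ := exists_nat_ge (max |φ| (max κ (1 / δ)))
    have hk1 : |φ| ≤ k := (le_max_left _ _).trans hk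
    have hk2 : κ ≤ k := ((le_max_left _ _).trans (le_max_right _ _)).trans hk
    have hk3 : 1 / δ ≤ k := ((le_max_right _ _).trans (le_max_right _ _)).trans hk
    refine Set.mem_iUnion.2 ⟨k, by linarith, hinf.mono ?_⟩
    rintro t ⟨h1, h2⟩
    have ht0 : (0 : ℝ) ≤ t.1 := Nat.cast_nonneg _
    constructor
    · refine h1.trans_le (exp_le_exp.2 ?_)
      have h3 : 1 / ((k : ℝ) + 1) ≤ δ := by
        rw [div_le_iff₀ (by positivity)]
        rw [div_le_iff₀ hδ] at hk3
        nlinarith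
      have : 1 / ((k : ℝ) + 1) * t.1 ≤ δ * t.1 := by gcongr
      linarith
    · have h3 := (abs_lt.1 h2).1
      have h4 : exp (-(δ * t.1)) ≤ 1 := by
        rw [exp_le_one_iff]
        have : 0 ≤ δ * t.1 := by positivity
        linarith
      have h5 : (t.2 : ℝ) ≤ ((k : ℝ) + 1) * (t.1 + 1) := by nlinarith
      exact_mod_cast h5
  refine le_antisymm ((dimH_mono hsub).trans ?_) bot_le
  rw [dimH_iUnion]
  exact iSup_le fun k => (h k).le

/-- the dependent angles are countably many -/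
theorem dep_countable {ξ : ℂ} (hξ : ‖ξ‖ = 1) :
    {φ : ℝ | ∃ p q : ℕ, 1 ≤ p ∧ 1 ≤ q ∧ Complex.exp (φ * Complex.I) ^ p = ξ ^ q}.Countable := by
  set ψ : ℝ := Complex.arg ξ with hψ
  have hξe : ξ = Complex.exp (ψ * Complex.I) := by
    have := Complex.norm_mul_exp_arg_mul_I ξ
    rw [hξ, Complex.ofReal_one, one_mul] at this
    exact this.symm
  have hc : (Set.range fun t : ℕ × ℕ × ℤ => (t.2.1 * ψ + t.2.2 * (2 * π)) / t.1).Countable :=
    Set.countable_range _
  refine hc.mono ?_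
  rintro φ ⟨p, q, hp, -, h⟩
  rw [hξe, ← Complex.exp_nat_mul, ← Complex.exp_nat_mul, Complex.exp_eq_exp_iff_exists_int] at h
  obtain ⟨j, hj⟩ := h
  refine ⟨(p, q, j), ?_⟩
  have hp0 : (p : ℝ) ≠ 0 := by exact_mod_cast (by omega : p ≠ 0)
  have h1 : ((p : ℂ) * φ - (q * ψ + j * (2 * π))) * Complex.I = 0 := by linear_combination hj
  have h2 := (mul_eq_zero.1 h1).resolve_right Complex.I_ne_zero
  have h3 : (p : ℝ) * φ - (q * ψ + j * (2 * π)) = 0 := by exact_mod_cast h2
  simp only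
  rw [div_eq_iff hp0]
  linarith

/-- **Almost all phases.** -/
theorem almost_phase {ξ : ℂ} (hξ : ‖ξ‖ = 1) : ∃ E : Set ℝ, dimH E = 0 ∧ ∀ φ : ℝ, φ ∉ E → ∀ a b : ℝ,
    1 < a → 1 < b → Law (a * Complex.exp (φ * Complex.I)) (b * ξ) := by
  refine ⟨{φ : ℝ | Resonant (Complex.exp (φ * Complex.I)) ξ} ∪
    {φ : ℝ | ∃ p q : ℕ, 1 ≤ p ∧ 1 ≤ q ∧ Complex.exp (φ * Complex.I) ^ p = ξ ^ q}, ?_, ?_⟩
  · rw [dimH_union, dim_res hξ, dimH_countable (dep_countable hξ), max_self]
  · intro φ hφ a b ha hb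
    rw [Set.mem_union, not_or] at hφ
    have hζ : ‖Complex.exp (φ * Complex.I)‖ = 1 := Complex.norm_exp_ofReal_mul_I φ
    refine char hζ hξ hφ.1 ha hb ?_
    intro p q hp hq hpq
    apply hφ.2
    refine ⟨p, q, hp, hq, ?_⟩
    have h1 : a ^ p = b ^ q := by
      have := congrArg norm hpq
      rwa [norm_pow, norm_pow, norm_mul, norm_mul, hζ, hξ, Complex.norm_real, Complex.norm_real,
        norm_of_nonneg (by linarith), norm_of_nonneg (by linarith), mul_one, mul_one] at this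
    rw [mul_pow, mul_pow, ← Complex.ofReal_pow, ← Complex.ofReal_pow, h1] at hpq
    exact mul_left_cancel₀ (by exact_mod_cast (pow_pos (by linarith : 0 < b) q).ne') hpq

end Pool.Agent.D0H19.CB
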